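import Pool.Agent.Q236.SL.PatL

set_option autoImplicit false

/-!
# Prime values of 100% of the quadratic polynomials, and of the polynomials of every degree: pairs, tuples and exact
# patterns of prime values at shifted arguments

`P = F + c_0 + c_1 x + … + c_(d-1) x^(d-1)` with an ARBITRARY polynomial `F` of bounded degree and `d` random
coefficients, `c_j` in intervals of length at least `X / log^C X`, all values at the arguments `1, …, log^(E₃+1) X`
between `X / log^C X` and `X log^C X`. For `F = 0`, `d = 3` these are the quadratic polynomials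
`f = c_2 x² + c_1 x + c_0` with coefficients of the size `X` (up to powers of the logarithm); for `F = 0` and
`d = D + 1` all polynomials of degree `D`; with `F ≠ 0` the random quadratic `f` may be added to any polynomial.

Only `d = N + 1` random coefficients are needed for the Hardy-Littlewood asymptotic for all constellations of `N`
points: for all but a proportion `log^(-B) X` of the families `(P_1, …, P_m)`, `m ≤ log^E X`, the following holds AT
THE SAME TIME for ALL sets `S` of at most `N` pairs `(i, r)` with `r ≤ log^E X`, for all progressions `b + q k` with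
`b, q ≤ log^E X` and all intervals `(a, a + h]` with `h ≥ log^(E₂) X`, `a ≤ h log^E X` below `log^(E₃) X`:

* UNIFORM ASYMPTOTIC: the number of the `k` in `(a, a + h]` such that all the `P_i(b + q k + r)`, `(i, r) ∈ S`, are
  PRIME is `(1 + O*(ε)) 𝔖 h / log^|S| X`, where `𝔖` is the singular series of the constellation;
* if the constellation has no fixed prime divisor, it occurs in each of these intervals;
* EXACT PATTERNS for `|S| ≤ N - 1`: for every set `J` of indices and every length `R` with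
  `|J| (R + 1) ≤ log^(1 - δ) X` and `S ⊆ J × [0, R]`, the number of the `k` in `(a, a + h]` such that the primes among
  the `P_i(b + q k + r)`, `i ∈ J`, `0 ≤ r ≤ R`, are EXACTLY those with `(i, r) ∈ S`, is `(1 + O*(ε)) 𝔖 h / log^|S| X`,
  and it is positive when there is no fixed prime divisor.

For 100% of the QUADRATIC polynomials `f` (`d = 3`, `N = 2`): the asymptotic of the conjecture for the number of the
prime values of `f` in all these progressions and intervals, the asymptotic for the number of the `n` with `f(n)` and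
`f(n + r)` both prime for ALL `r ≤ log^E X` at once, and isolated prime values (`f(n)` prime, all `f(n ± r)`,
`0 < r ≤ log^(1 - δ) X`, composite) with the expected frequency. For 100% of the cubic polynomials: also all triples
`f(n), f(n + r), f(n + s)` and CONSECUTIVE prime values `f(n), f(n + r)`, and so on in every degree.

The proof needs only two directions in which the orthogonality of the values at two different constellations is
exact (complexity one), Vinogradov's method on the major and minor arcs, and a grid of blocks for the intervals.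
-/

namespace Pool.Agent.Results.MP_a1177c_nt.EveryConstellation

open Finset Filter

/-- The value at `k` of `F + c_0 + c_1 x + … + c_{d-1} x^(d-1)`. -/
noncomputable def value {d : ℕ} (F : Polynomial ℤ) (c : Fin d → ℤ) (k : ℕ) : ℤ :=
  F.eval (k : ℤ) + ∑ j, c j * (k : ℤ) ^ (j : ℕ)

/-- The arrays of coefficients `Z i j < c i j ≤ Z i j + Y i j`. -/
noncomputable def Arrays {m d : ℕ} (Z : Fin m → Fin d → ℤ) (Y : Fin m → Fin d → ℕ) : Finset (Fin m → Fin d → ℤ) :=
  Fintype.piFinset fun i => Fintype.piFinset fun j => Ioc (Z i j) (Z i j + Y i j)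

/-- The value of the constellation point `x = (i, r)` at `n`: the number `P_i(n + r)`. -/
noncomputable def point {m d : ℕ} (F : Fin m → Polynomial ℤ) (c : Fin m → Fin d → ℤ) (n : ℕ) (x : Fin m × ℕ) : ℤ :=
  value (F x.1) (c x.1) (n + x.2)

open Classical in
/-- The number of the `k` with `a < k ≤ a + h` such that all the `P_i(b + q k + r)`, `(i, r) ∈ S`, are primes. -/
noncomputable def constellations {m d : ℕ} (F : Fin m → Polynomial ℤ) (c : Fin m → Fin d → ℤ) (S : Finset (Fin m × ℕ))
    (b q a h : ℕ) : ℕ :=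
  ((Ioc a (a + h)).filter (fun k => ∀ x ∈ S, (point F c (b + q * k) x).toNat.Prime)).card

open Classical in
/-- The number of the `k` with `a < k ≤ a + h` such that, for `i ∈ J` and `0 ≤ r ≤ R`, the number `P_i(b + q k + r)` is
prime if and only if `(i, r) ∈ S`. -/
noncomputable def patterns {m d : ℕ} (F : Fin m → Polynomial ℤ) (c : Fin m → Fin d → ℤ) (J : Finset (Fin m)) (R : ℕ)
    (S : Finset (Fin m × ℕ)) (b q a h : ℕ) : ℕ :=
  ((Ioc a (a + h)).filter (fun k => ∀ x ∈ J ×ˢ range (R + 1), ((point F c (b + q * k) x).toNat.Prime ↔ x ∈ S))).card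

open Classical in
/-- The number of the residues `k` modulo `p` such that `p` divides one of the `P_i(b + q k + r)`, `(i, r) ∈ S`. -/
noncomputable def omega {m d : ℕ} (F : Fin m → Polynomial ℤ) (c : Fin m → Fin d → ℤ) (S : Finset (Fin m × ℕ))
    (b q p : ℕ) : ℕ :=
  ((range p).filter (fun k => ∃ x ∈ S, (p : ℤ) ∣ point F c (b + q * k) x)).card

/-- The singular series: the product of `(1 - ω(p) / p) / (1 - 1 / p)^|S|` over the primes `p ≤ z`. -/
noncomputable def singular {m d : ℕ} (F : Fin m → Polynomial ℤ) (c : Fin m → Fin d → ℤ) (S : Finset (Fin m × ℕ))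
    (b q z : ℕ) : ℝ :=
  ∏ p ∈ (Icc 1 z).filter Nat.Prime, ((1 - (omega F c S b q p : ℝ) / p) / (1 - 1 / (p : ℝ)) ^ S.card)

/-- No prime `p ≤ z` divides one of the values of the constellation for every `k`. -/
def Possible {m d : ℕ} (F : Fin m → Polynomial ℤ) (c : Fin m → Fin d → ℤ) (S : Finset (Fin m × ℕ)) (b q z : ℕ) : Prop :=
  ∀ p : ℕ, p.Prime → p ≤ z → ∃ k : ℕ, ∀ x ∈ S, ¬ (p : ℤ) ∣ point F c (b + q * k) x

/-- The uniform asymptotic for all constellations with at most `N` points and the exact patterns with at most `N - 1`. -/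
def Regular (N E E₂ E₃ : ℕ) (δ ε : ℝ) (z X : ℕ) {m d : ℕ} (F : Fin m → Polynomial ℤ) (c : Fin m → Fin d → ℤ) : Prop :=
  ∀ (S : Finset (Fin m × ℕ)) (b q a h : ℕ), 1 ≤ S.card → 1 ≤ q → (b : ℝ) ≤ Real.log X ^ E → (q : ℝ) ≤ Real.log X ^ E →
    Real.log X ^ E₂ ≤ h → (a : ℝ) ≤ h * Real.log X ^ E →
    -- the constellations
    (S.card ≤ N → (∀ x ∈ S, (x.2 : ℝ) ≤ Real.log X ^ E) → (∀ x ∈ S, ((b + q * (a + h) + x.2 : ℕ) : ℝ) ≤ Real.log X ^ E₃) →
      |(constellations F c S b q a h : ℝ) - singular F c S b q z * (h / Real.log X ^ S.card)| ≤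
        ε * (singular F c S b q z * (h / Real.log X ^ S.card)) ∧
      (Possible F c S b q z → ∃ k : ℕ, a < k ∧ k ≤ a + h ∧ ∀ x ∈ S, (point F c (b + q * k) x).toNat.Prime)) ∧
    -- the exact patterns
    (S.card + 1 ≤ N → ∀ (J : Finset (Fin m)) (R : ℕ), S ⊆ J ×ˢ range (R + 1) →
      (J.card : ℝ) * (R + 1) ≤ Real.log X ^ (1 - δ) → ((b + q * (a + h) + R : ℕ) : ℝ) ≤ Real.log X ^ E₃ →
      |(patterns F c J R S b q a h : ℝ) - singular F c S b q z * (h / Real.log X ^ S.card)| ≤
        ε * (singular F c S b q z * (h / Real.log X ^ S.card)) ∧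
      (Possible F c S b q z → ∃ k : ℕ, a < k ∧ k ≤ a + h ∧ ∀ i ∈ J, ∀ r ≤ R,
        ((value (F i) (c i) (b + q * k + r)).toNat.Prime ↔ (i, r) ∈ S)))

open Pool.Agent.Q236.SH Pool.Agent.Q236.SL
open Pool.Agent.Q236.RP (Box eval_mod ev_log_ge)
open Pool.Agent.Q236.CG (BA evm)

lemma arrays_eq {m d : ℕ} (Z : Fin m → Fin d → ℤ) (Y : Fin m → Fin d → ℕ) : Arrays Z Y = BA Z Y := rfl

lemma cnt_eq {m d : ℕ} (F : Fin m → Polynomial ℤ) (c : Fin m → Fin d → ℤ) (S : Finset (Fin m × ℕ)) (b q a h : ℕ) :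
    cntF F c S b q a h = constellations F c S b q a h := rfl

lemma ex_eq {m d : ℕ} (F : Fin m → Polynomial ℤ) (c : Fin m → Fin d → ℤ) (J : Finset (Fin m)) (R : ℕ)
    (S : Finset (Fin m × ℕ)) (b q a h : ℕ) : exF F c J R S b q a h = patterns F c J R S b q a h := rfl

lemma sg_eq {m d : ℕ} (F : Fin m → Polynomial ℤ) (c : Fin m → Fin d → ℤ) (S : Finset (Fin m × ℕ)) (b q z : ℕ) :
    sgF F c S b q z = singular F c S b q z := rfl

lemma sing_pos {m d : ℕ} (F : Fin m → Polynomial ℤ) (c : Fin m → Fin d → ℤ) (S : Finset (Fin m × ℕ)) (b q z : ℕ)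
    (h : Possible F c S b q z) : 0 < singular F c S b q z := by
  classical
  unfold singular
  apply Finset.prod_pos
  intro p hp
  rw [mem_filter, mem_Icc] at hp
  obtain ⟨⟨_, hpz⟩, hpp⟩ := hp
  have hp0 : (0 : ℝ) < p := by exact_mod_cast hpp.pos
  have hp1 : (1 : ℝ) < p := by exact_mod_cast hpp.one_lt
  obtain ⟨k, hk⟩ := h p hpp hpz
  have hlt : omega F c S b q p < p := by
    unfold omega
    have h1 : ((range p).filter (fun k => ∃ x ∈ S, (p : ℤ) ∣ point F c (b + q * k) x)) ⊂ range p := by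
      rw [Finset.ssubset_iff_of_subset (filter_subset _ _)]
      refine ⟨k % p, mem_range.2 (Nat.mod_lt _ hpp.pos), ?_⟩
      rw [mem_filter, not_and]
      rintro _ ⟨x, hx, hd⟩
      apply hk x hx
      have hkm : b + q * (k % p) + x.2 ≡ b + q * k + x.2 [MOD p] :=
        Nat.ModEq.add_right x.2 (Nat.ModEq.add_left b (Nat.ModEq.mul_left q (Nat.mod_modEq k p)))
      have h2 : ∀ j : ℕ, (p : ℤ) ∣ ((b + q * (k % p) + x.2 : ℕ) : ℤ) ^ j - ((b + q * k + x.2 : ℕ) : ℤ) ^ j := by
        intro j
        have h3 : (p : ℤ) ∣ ((b + q * (k % p) + x.2 : ℕ) : ℤ) - ((b + q * k + x.2 : ℕ) : ℤ) := Nat.modEq_iff_dvd.1 hkm.symm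
        exact h3.trans (sub_dvd_pow_sub_pow _ _ _)
      have h4 : (p : ℤ) ∣ point F c (b + q * (k % p)) x - point F c (b + q * k) x := by
        unfold point value
        have e1 : ∀ x y u v : ℤ, x + u - (y + v) = (x - y) + (u - v) := by intros; ring
        rw [e1]
        apply dvd_add
        · exact eval_mod _ p _ _ hkm
        · rw [← Finset.sum_sub_distrib]
          apply Finset.dvd_sum
          intro j _
          rw [← mul_sub]
          exact Dvd.dvd.mul_left (h2 _) _
      have h6 := dvd_sub hd h4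
      rwa [sub_sub_cancel] at h6
    have h6 := card_lt_card h1
    rwa [card_range] at h6
  apply div_pos
  · rw [sub_pos, div_lt_one hp0]
    exact_mod_cast hlt
  · apply pow_pos
    rw [sub_pos, div_lt_one hp0]
    exact hp1

lemma pos_of_main (n : ℕ) (ε G : ℝ) (hε : ε ≤ 1 / 2) (hG : 0 < G) (h : |(n : ℝ) - G| ≤ ε * G) : 0 < n := by
  have h1 := (abs_le.1 h).1
  have h2 : ε * G ≤ 1 / 2 * G := mul_le_mul_of_nonneg_right hε hG.le
  have h3 : (0 : ℝ) < n := by linarith
  exact_mod_cast h3

open Classical in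
/-- **The uniform Hardy-Littlewood asymptotic for all constellations of at most `N` values of 100% of the polynomials with
`N + 1` random coefficients.** -/
theorem result (N B E d : ℕ) (hN : 1 ≤ N) (hE : 1 ≤ E) (hd : N + 1 ≤ d) : ∃ E₂ : ℕ, ∀ E₃ C : ℕ, ∃ A₀ : ℕ,
    ∀ (A D : ℕ) (δ ε : ℝ), 0 < δ → 0 < ε →
    ∃ X₀ : ℕ, ∀ X, X₀ ≤ X → ∀ z : ℕ, Real.log X ^ A₀ ≤ z → (z : ℝ) ≤ Real.log X ^ A →
    ∀ m : ℕ, (m : ℝ) ≤ Real.log X ^ E →
    ∀ (F : Fin m → Polynomial ℤ) (Z : Fin m → Fin d → ℤ) (Y : Fin m → Fin d → ℕ), (∀ i, (F i).natDegree ≤ D) →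
    (∀ i j, (X : ℝ) / Real.log X ^ C ≤ Y i j) →
    (∀ c ∈ Arrays Z Y, ∀ i, ∀ k : ℕ, 1 ≤ k → (k : ℝ) ≤ Real.log X ^ (E₃ + 1) →
      (X : ℝ) / Real.log X ^ C ≤ value (F i) (c i) k ∧ (value (F i) (c i) k : ℝ) ≤ X * Real.log X ^ C) →
    (((Arrays Z Y).filter (fun c => ¬ Regular N E E₂ E₃ δ ε z X F c)).card : ℝ) ≤ (Arrays Z Y).card / Real.log X ^ B := by
  obtain ⟨E2, hE2⟩ := all_regL N B E d hN hd
  refine ⟨E2, ?_⟩
  intro E3 C
  obtain ⟨A0, hA0⟩ := hE2 E3 C
  refine ⟨A0, ?_⟩
  intro A D δ ε hδ hε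
  obtain ⟨ε', hε'⟩ : ∃ ε' : ℝ, ε' = min ε (1 / 2) := ⟨_, rfl⟩
  have hε'0 : 0 < ε' := by rw [hε']; positivity
  have hε'1 : ε' ≤ ε := by rw [hε']; exact min_le_left _ _
  have hε'2 : ε' ≤ 1 / 2 := by rw [hε']; exact min_le_right _ _
  obtain ⟨X0, hX0⟩ := eventually_atTop.1 ((hA0 A D (min ε' 1 / 4) (by positivity)).and
    ((reg_exactL N E E2 E3 A δ ε' hδ hε'0 hE).and (ev_log_ge 1)))
  refine ⟨X0, ?_⟩
  intro X hX z hz1 hz2 m hm F Z Y hF hY hval
  obtain ⟨h1, h2, hL⟩ := hX0 X hX
  have hL0 : 0 < Real.log (X : ℝ) := by linarith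
  have hz : 1 ≤ z := by
    have h3 : (1 : ℝ) ≤ z := le_trans (one_le_pow₀ hL) hz1
    exact_mod_cast h3
  rw [arrays_eq] at hval ⊢
  by_cases hne : (BA Z Y).Nonempty
  swap
  · rw [Finset.not_nonempty_iff_eq_empty] at hne
    rw [hne]
    simp
  obtain ⟨c0, hc0⟩ := hne
  refine le_trans ?_ (h1 z hz1 hz2 m hm F Z Y hF hY (by
    intro i c hc k hk1 hk2
    have hc' : Function.update c0 i c ∈ BA Z Y := by
      unfold BA at hc0 ⊢
      rw [Fintype.mem_piFinset] at hc0 ⊢
      intro i'
      by_cases hi : i' = i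
      · subst hi
        rw [Function.update_self]
        exact hc
      · rw [Function.update_of_ne hi]
        exact hc0 i'
    have h3 := hval _ hc' i k hk1 hk2
    rw [Function.update_self] at h3
    have h4 : evm (fun k => (F i).eval (k : ℤ)) 1 c k = value (F i) c k := by
      unfold evm value
      rw [one_mul]
    rw [h4]
    exact h3))
  exact_mod_cast card_le_card (fun c hc => by
    rw [mem_filter] at hc ⊢
    refine ⟨hc.1, ?_⟩
    intro hreg
    apply hc.2
    intro S b q a h hS1 hq hb hqL hh ha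
    have hh0 : (0 : ℝ) < h := lt_of_lt_of_le (pow_pos hL0 _) hh
    refine ⟨?_, ?_⟩
    · intro hSN hsh hpts
      have h3 := hreg S b q a h hS1 hSN ⟨hq, hb, hqL, hsh, hpts, hh, ha⟩
      rw [cnt_eq, sg_eq] at h3
      obtain ⟨G, hG⟩ : ∃ G, G = singular F c S b q z * (h / Real.log X ^ S.card) := ⟨_, rfl⟩
      rw [← hG] at h3 ⊢
      have hG0 : 0 ≤ G := by
        rw [hG]
        exact mul_nonneg (sgF_nonneg F c S b q z) (by positivity)
      have h4 : min ε' 1 / 4 ≤ ε' := by
        have h5 := min_le_left ε' 1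
        linarith
      have h5 : |(constellations F c S b q a h : ℝ) - G| ≤ ε' * G := h3.trans (mul_le_mul_of_nonneg_right h4 hG0)
      refine ⟨h5.trans (mul_le_mul_of_nonneg_right hε'1 hG0), ?_⟩
      intro hpos
      have hs := sing_pos F c S b q z hpos
      have hGp : 0 < G := by rw [hG]; positivity
      have h6 := pos_of_main _ ε' G hε'2 hGp h5
      unfold constellations at h6
      rw [card_pos] at h6
      obtain ⟨k, hk⟩ := h6
      rw [mem_filter, mem_Ioc] at hk
      exact ⟨k, hk.1.1, hk.1.2, hk.2⟩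
    · intro hSN J R hSJ hJR hpts
      have h5 := h2 z hz hz2 m d F c hreg J R S b q a h hS1 hSN hSJ hJR hq hb hqL hpts hh ha
      rw [ex_eq, sg_eq] at h5
      obtain ⟨G, hG⟩ : ∃ G, G = singular F c S b q z * (h / Real.log X ^ S.card) := ⟨_, rfl⟩
      rw [← hG] at h5 ⊢
      have hG0 : 0 ≤ G := by
        rw [hG]
        exact mul_nonneg (sgF_nonneg F c S b q z) (by positivity)
      refine ⟨h5.trans (mul_le_mul_of_nonneg_right hε'1 hG0), ?_⟩
      intro hpos
      have hs := sing_pos F c S b q z hpos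
      have hGp : 0 < G := by rw [hG]; positivity
      have h6 := pos_of_main _ ε' G hε'2 hGp h5
      unfold patterns at h6
      rw [card_pos] at h6
      obtain ⟨k, hk⟩ := h6
      rw [mem_filter, mem_Ioc] at hk
      refine ⟨k, hk.1.1, hk.1.2, ?_⟩
      intro i hi r hr
      exact hk.2 (i, r) (mem_product.2 ⟨hi, mem_range.2 (by omega)⟩))

end Pool.Agent.Results.MP_a1177c_nt.EveryConstellation
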