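import Pool.Agent.Q145.LQ.AllF

set_option autoImplicit false
set_option maxHeartbeats 4000000

/-!
# Prime values of almost all long systems of polynomials of bounded degree

Let `G_1, ..., G_K` be integer polynomials of degree between `2` and `d` with leading coefficients at most `Q` in
absolute value, and let `T_i` and `H_i` be the ranges of the coefficients of `n` and `1`: all the polynomials `G_i + t x`,
`1 ≤ t ≤ T_i`, have size `H_i` on `(Y, 2 Y]`, `H_i` between `X` and `Q X`, `T_i ≥ X / (Q Y)`. For almost all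
`(t_1, ..., t_K)` and almost all admissible `(s_1, ..., s_K)`, `1 ≤ s_i ≤ H_i`, the number of `Y < n ≤ 2 Y` for which all
`G_i(n) + t_i n + s_i` are prime is given by the formula of Hardy-Littlewood and Bateman-Horn, with the singular series
over the primes `p ≤ w`, for any `w` between `log X` and `X ^ (1 / 20)`. Here `Y` is any number with
`C (Q + log log X) log log X ≤ log Y ≤ log X`, so `K` may be as large as `c log Y / log log X` (for
`K ≥ (1 + δ) log Y / log log X` the expected number tends to `0`) and `Y` as small as `exp (C (log log X) ^ 2)`: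

* for every `X` and `Q ≤ A log log X`;
* for arbitrarily large `X` and `Q ≤ c log X / log log X`;
* for every `X` and `Q ≤ c log X / log log X`, unless there is an exceptional zero.
-/

namespace Pool.Agent.Results.MP_a1177c_nt.LongSystemsAllDegrees

open Finset Filter Polynomial

open scoped Classical

/-- The polynomials `G_i + t_i x`. -/
noncomputable def lines {K : ℕ} (G : Fin K → ℤ[X]) (t : Fin K → ℕ) : Fin K → ℤ[X] := fun i => G i + C (t i : ℤ) * X

/-- For a prime `p`: the number of classes `n` modulo `p` for which `p` divides one of the `q_i(n) + s_i`. -/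
def classes {K : ℕ} (q : Fin K → ℤ[X]) (s : Fin K → ℕ) (p : ℕ) : ℕ :=
  ((range p).filter fun n : ℕ => ∃ i, (p : ℤ) ∣ (q i).eval (n : ℤ) + s i).card

/-- The product of the `q_i + s_i` has no fixed prime divisor. -/
def Admissible {K : ℕ} (q : Fin K → ℤ[X]) (s : Fin K → ℕ) : Prop := ∀ p : ℕ, p.Prime → classes q s p < p

/-- The product of Bateman and Horn of the system `q_i + s_i`, for the primes up to `w`. -/
noncomputable def partialSeries {K : ℕ} (q : Fin K → ℤ[X]) (s : Fin K → ℕ) (w : ℕ) : ℝ :=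
  ∏ p ∈ (Icc 1 w).filter Nat.Prime, (1 - (classes q s p : ℝ) / p) / (1 - 1 / (p : ℝ)) ^ K

/-- The number of integers `Y < n ≤ 2 Y` for which all the `q_i(n) + s_i` are prime. -/
def count {K : ℕ} (Y : ℕ) (q : Fin K → ℤ[X]) (s : Fin K → ℕ) : ℕ :=
  ((Ioc Y (2 * Y)).filter fun n : ℕ => ∀ i, ((q i).eval (n : ℤ) + s i).toNat.Prime).card

/-- The admissible `s` with `1 ≤ s_i ≤ H_i`. -/
noncomputable def constants {K : ℕ} (H : Fin K → ℕ) (q : Fin K → ℤ[X]) : Finset (Fin K → ℕ) :=
  (Fintype.piFinset fun i => Icc 1 (H i)).filter (Admissible q)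

/-- The `G_i` have degree between `2` and `d` and leading coefficients at most `Q` in absolute value, and
`5 H_i / 4 < G_i(n) + t n ≤ 2 H_i` for `Y < n ≤ 2 Y` and `1 ≤ t ≤ T_i`, where `X ≤ H_i ≤ Q X` and `T_i ≥ X / (Q Y)`. -/
structure Families (d Q Y X : ℕ) {K : ℕ} (H T : Fin K → ℕ) (G : Fin K → ℤ[X]) : Prop where
  deg : ∀ i, 2 ≤ (G i).natDegree ∧ (G i).natDegree ≤ d
  lead : ∀ i, |(G i).leadingCoeff| ≤ Q
  scale : ∀ i, X ≤ H i ∧ H i ≤ Q * X
  range : ∀ i, 1 ≤ T i ∧ X ≤ Q * Y * T i
  val : ∀ i, ∀ t ∈ Icc 1 (T i), ∀ n ∈ Ioc Y (2 * Y),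
    5 * (H i : ℤ) < 4 * ((G i).eval (n : ℤ) + t * n) ∧ (G i).eval (n : ℤ) + t * n ≤ 2 * H i

/-- `count = 𝔖 Y / ∏ log H_i`, with a relative error at most `ε`, for all but a proportion at most `ε` of the admissible
`s`; `𝔖` is the product over the primes up to `w`. -/
def Formula {K : ℕ} (Y w : ℕ) (H : Fin K → ℕ) (q : Fin K → ℤ[X]) (ε : ℝ) : Prop :=
  (((constants H q).filter fun s =>
    ¬ (|count Y q s * ∏ i, Real.log (H i) - partialSeries q s w * Y| ≤ ε * (partialSeries q s w * Y))).card : ℝ) ≤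
      ε * (constants H q).card

/-- The formula for all but a proportion at most `ε` of the `t`, for all systems of families of length at most `Q`, with
leading coefficients at most `Q`, and all `Y ≤ X` with `log Y ≥ C (Q + log log X) log log X`. -/
def Holds (d : ℕ) (C : ℝ) (X Q : ℕ) (ε : ℝ) : Prop := ∀ Y K w : ℕ,
  C * ((Q + Real.log (Real.log X)) * Real.log (Real.log X)) ≤ Real.log Y → Y ≤ X → K ≤ Q →
  Real.log X ≤ w → (w : ℝ) ^ 20 ≤ X → ∀ (H T : Fin K → ℕ) (G : Fin K → ℤ[X]), Families d Q Y X H T G →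
    (((Fintype.piFinset fun i => Icc 1 (T i)).filter fun t => ¬ Formula Y w H (lines G t) ε).card : ℝ) ≤
      ε * (Fintype.piFinset fun i => Icc 1 (T i)).card

/-- There is no exceptional zero at the scale `X`: the real zeros `β` of the primitive quadratic
characters of conductor `1 < r ≤ exp (log X / log log X)` are at most `1 - C log log X / log X`. -/
def NoExceptionalZero (C : ℝ) (X : ℕ) : Prop :=
  ∀ (r : ℕ) [NeZero r], 1 < r → (r : ℝ) ≤ Real.exp (Real.log X / Real.log (Real.log X)) →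
    ∀ χ : DirichletCharacter ℂ r, χ.IsPrimitive → χ ^ 2 = 1 → ∀ β : ℝ, χ.LFunction β = 0 →
      β ≤ 1 - C * (Real.log (Real.log X) / Real.log X)

open Pool.Agent.Q145.LQ

theorem deg_line {G : ℤ[X]} (h : 2 ≤ G.natDegree) (t : ℤ) : (G + C t * X).natDegree = G.natDegree ∧
    (G + C t * X).leadingCoeff = G.leadingCoeff := by
  have h0 : (C t * X : ℤ[X]).natDegree ≤ 1 := by compute_degree
  have h1 : (C t * X : ℤ[X]).natDegree < G.natDegree := by omega
  have h2 : (C t * X : ℤ[X]).degree < G.degree := degree_lt_degree h1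
  exact ⟨natDegree_add_eq_left_of_natDegree_lt h1, leadingCoeff_add_of_degree_lt' h2⟩

theorem sys_of {d Q Q' Y X K : ℕ} {H T : Fin K → ℕ} {G : Fin K → ℤ[X]} (h : Families d Q Y X H T G) (hQ : Q ≤ Q') :
    SysT d Q' Y X H T G where
  sys := fun t ht => by
    refine ⟨fun i => ?_, fun i => ?_, fun i => ⟨(h.scale i).1, (h.scale i).2.trans (Nat.mul_le_mul_right _ hQ)⟩, fun i n hn => ?_⟩
    · have h1 := (deg_line (h.deg i).1 (t i : ℤ)).1
      unfold qt
      have h2 := h.deg i
      omega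
    · have h1 := (deg_line (h.deg i).1 (t i : ℤ)).2
      unfold qt
      rw [h1]
      have := h.lead i
      rw [Int.abs_eq_natAbs] at this
      have h2 : (G i).leadingCoeff.natAbs ≤ Q := by exact_mod_cast this
      exact h2.trans hQ
    · rw [Fintype.mem_piFinset] at ht
      have h1 := h.val i (t i) (ht i) n hn
      unfold qt
      simp only [eval_add, eval_mul, eval_C, eval_X]
      exact h1
  pos := fun i => (h.range i).1
  rng := fun i => (h.range i).2.trans (Nat.mul_le_mul_right _ (Nat.mul_le_mul_right _ hQ))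

theorem holds_of {d X Q : ℕ} {C₁ ε : ℝ} (hC₁ : 0 < C₁) (hl : 1 ≤ Real.log (Real.log X)) (h : PF d C₁ X (2 * (d + 1) * (Q + 1)) ε) :
    Holds d (C₁ * (4 * (d + 1))) X Q ε := by
  intro Y K w hYθ hYX hK hw1 hw2 H T G hF
  have hQQ : Q ≤ 2 * (d + 1) * (Q + 1) := by nlinarith
  have hS := sys_of hF hQQ
  have hY : C₁ * ((((2 * (d + 1) * (Q + 1) : ℕ) : ℝ) + Real.log (Real.log X)) * Real.log (Real.log X)) ≤ Real.log Y := by
    refine le_trans ?_ hYθ
    have e : C₁ * (4 * ((d : ℝ) + 1)) * ((Q + Real.log (Real.log X)) * Real.log (Real.log X)) =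
        C₁ * ((4 * (d + 1) * (Q + Real.log (Real.log X))) * Real.log (Real.log X)) := by ring
    rw [e]
    apply mul_le_mul_of_nonneg_left _ hC₁.le
    apply mul_le_mul_of_nonneg_right _ (by linarith)
    push_cast
    have h1 : (0 : ℝ) ≤ d := Nat.cast_nonneg _
    have h2 : (0 : ℝ) ≤ Q := Nat.cast_nonneg _
    nlinarith [mul_nonneg h1 h2, mul_nonneg h1 (by linarith : (0 : ℝ) ≤ Real.log (Real.log X) - 1)]
  have h1 := h Y K w H T G hY hYX (by gcongr) hS hw1 hw2
  have hcard : ((Fintype.piFinset fun i => Icc 1 (T i)).card : ℝ) = ∏ i, (T i : ℝ) := by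
    rw [Fintype.card_piFinset]
    push_cast
    refine prod_congr rfl fun i _ => ?_
    rw [Nat.card_Icc, Nat.add_sub_cancel]
  rw [hcard]
  refine le_trans ?_ h1
  have hsub : ((Fintype.piFinset fun i => Icc 1 (T i)).filter fun t => ¬ Formula Y w H (lines G t) ε) ⊆
      ((Fintype.piFinset fun i => Icc 1 (T i)).filter fun t => ¬ HLQ Y H (qt G t) (fun s => singPQ (qt G t) s w) ε) := by
    intro t ht
    rw [mem_filter] at ht ⊢
    refine ⟨ht.1, fun hH => ht.2 ?_⟩
    unfold HLQ at hH
    unfold Formula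
    have h2 : ∀ s, count Y (lines G t) s = cntQ Y (qt G t) s := by
      intro s
      unfold count cntQ
      congr 1
      apply filter_congr
      intro n hn
      refine forall_congr' fun i => ?_
      have h0 := (hS.sys t ht.1).nonneg i hn
      have e : ((lines G t i).eval (n : ℤ) + s i).toNat = vq (qt G t i) n + s i := by
        change ((qt G t i).eval (n : ℤ) + s i).toNat = vq (qt G t i) n + s i
        unfold vq
        omega
      rw [e]
    simp only [h2]
    exact hH
  exact_mod_cast card_le_card hsub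

theorem example1 (d Q Y T K : ℕ) (hd : 2 ≤ d) (hY : 1 ≤ Y) (hT : (2 * Y) ^ (d - 1) ≤ 2 * T) (hQ : 8 ≤ Q) :
    Families d Q Y (8 * Y * T) (fun _ : Fin K => 8 * Y * T) (fun _ => T) (fun _ => X ^ d + C (10 * (Y : ℤ) * T)) where
  deg := fun _ => by
    rw [natDegree_X_pow_add_C]
    exact ⟨hd, le_rfl⟩
  lead := fun _ => by
    rw [leadingCoeff_X_pow_add_C (by omega)]
    simp
    omega
  scale := fun _ => ⟨le_rfl, Nat.le_mul_of_pos_left _ (by omega)⟩
  range := fun _ => ⟨by
    have : 1 ≤ (2 * Y) ^ (d - 1) := Nat.one_le_pow _ _ (by omega)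
    omega, by
    gcongr⟩
  val := fun _ t ht n hn => by
    rw [mem_Icc] at ht
    rw [mem_Ioc] at hn
    simp only [eval_add, eval_pow, eval_X, eval_C]
    have hY0 : (0 : ℤ) < (Y : ℤ) := by exact_mod_cast hY
    have hn0 : (0 : ℤ) < n := by exact_mod_cast (show 0 < n by omega)
    have ht1 : (t : ℤ) ≤ T := by exact_mod_cast ht.2
    have ht0 : (0 : ℤ) ≤ t := by positivity
    have hn2 : (n : ℤ) ≤ 2 * Y := by exact_mod_cast hn.2
    have hT' : (2 * (Y : ℤ)) ^ (d - 1) ≤ 2 * T := by exact_mod_cast hT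
    have h1 : (n : ℤ) ^ d ≤ 4 * (Y * T) := by
      calc (n : ℤ) ^ d ≤ (2 * Y) ^ d := pow_le_pow_left₀ hn0.le hn2 _
        _ = (2 * (Y : ℤ)) ^ (d - 1) * (2 * Y) := by
          rw [← pow_succ]
          congr 1
          omega
        _ ≤ (2 * T) * (2 * Y) := by gcongr
        _ = _ := by ring
    have h2 : (t : ℤ) * n ≤ T * (2 * Y) := mul_le_mul ht1 hn2 hn0.le (by positivity)
    have h3 : (0 : ℤ) < (n : ℤ) ^ d := by positivity
    have h4 : (0 : ℤ) ≤ t * n := by positivity
    push_cast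
    constructor <;> nlinarith

/-- **Theorem.** (0) Example: `x ^ d + 10 Y T`, `X = H = 8 Y T`, `(2 Y) ^ (d - 1) ≤ 2 T`. For every `d ≥ 2` there is `C`
such that: (1) for every large `X` the formula holds for all systems of families with `K` and the leading coefficients
at most `Q ≤ A log log X`, and all `Y ≤ X` with `log Y ≥ C (Q + log log X) log log X`; (2) for arbitrarily large `X` it
holds for `Q ≤ c log X / log log X`; (3) for every large `X` it holds for `Q ≤ c log X / log log X`, unless there is an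
exceptional zero at the scale `X`. -/
theorem result :
    (∀ d Q Y T K : ℕ, 2 ≤ d → 1 ≤ Y → (2 * Y) ^ (d - 1) ≤ 2 * T → 8 ≤ Q →
      Families d Q Y (8 * Y * T) (fun _ : Fin K => 8 * Y * T) (fun _ => T) (fun _ => X ^ d + C (10 * (Y : ℤ) * T))) ∧
    (∀ d : ℕ, 2 ≤ d → ∃ C : ℝ, 0 < C ∧
      (∀ A ε : ℝ, 0 < ε → ∀ᶠ X : ℕ in atTop, ∀ Q : ℕ, (Q : ℝ) ≤ A * Real.log (Real.log X) → Holds d C X Q ε) ∧
      (∃ c : ℝ, 0 < c ∧ ∀ ε : ℝ, 0 < ε → ∃ᶠ X : ℕ in atTop, ∀ Q : ℕ,
        (Q : ℝ) ≤ c * (Real.log X / Real.log (Real.log X)) → Holds d C X Q ε) ∧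
      (∃ c C₀ : ℝ, 0 < c ∧ 0 < C₀ ∧ ∀ ε : ℝ, 0 < ε → ∀ᶠ X : ℕ in atTop, NoExceptionalZero C₀ X →
        ∀ Q : ℕ, (Q : ℝ) ≤ c * (Real.log X / Real.log (Real.log X)) → Holds d C X Q ε)) := by
  have hLL : Tendsto (fun Y : ℕ => Real.log Y / Real.log (Real.log Y)) atTop atTop := by
    have h1 : Tendsto (fun x : ℝ => x / Real.log x) atTop atTop := by
      have h2 : Tendsto (fun x : ℝ => Real.log x / x) atTop (nhdsWithin 0 (Set.Ioi 0)) := by
        rw [tendsto_nhdsWithin_iff]
        refine ⟨?_, ?_⟩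
        · have := Real.isLittleO_log_id_atTop.tendsto_div_nhds_zero
          simpa using this
        · filter_upwards [eventually_gt_atTop 1] with x hx
          have := Real.log_pos hx
          exact div_pos this (by linarith)
      refine (tendsto_inv_nhdsGT_zero.comp h2).congr fun x => ?_
      simp
    exact h1.comp Pool.Agent.Q145.SZ.log_tendsto
  refine ⟨fun d Q Y T K hd hY hT hQ => example1 d Q Y T K hd hY hT hQ, fun d hd => ?_⟩
  obtain ⟨C₁, hC₁, m1, ⟨c, hc, m2⟩, ⟨c', C', hc', hC', m3⟩⟩ := mainF d (by omega)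
  have hll := Pool.Agent.Q145.SZ.ll_tendsto.eventually_ge_atTop 1
  refine ⟨C₁ * (4 * (d + 1)), by positivity, ?_, ?_, ?_⟩
  · intro A ε hε
    filter_upwards [m1 (2 * (d + 1) * (|A| + 1)) ε hε, hll] with X h hX Q hQ
    apply holds_of hC₁ hX
    apply h
    have h1 : A * Real.log (Real.log X) ≤ |A| * Real.log (Real.log X) := mul_le_mul_of_nonneg_right (le_abs_self A) (by linarith)
    push_cast
    have h2 : (Q : ℝ) + 1 ≤ (|A| + 1) * Real.log (Real.log X) := by nlinarith
    calc 2 * ((d : ℝ) + 1) * (Q + 1) ≤ 2 * (d + 1) * ((|A| + 1) * Real.log (Real.log X)) := by gcongr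
      _ = _ := by ring
  · refine ⟨c / (4 * (d + 1)), by positivity, fun ε hε => ?_⟩
    refine ((m2 ε hε).and_eventually ((hLL.eventually_ge_atTop (4 * (d + 1) / c)).and hll)).mono ?_
    rintro X ⟨h1, h2, hX⟩ Q hQ
    apply holds_of hC₁ hX
    apply h1
    rw [div_le_iff₀ hc] at h2
    have h3 : (Q : ℝ) * (4 * (d + 1)) ≤ c * (Real.log X / Real.log (Real.log X)) := by
      have := mul_le_mul_of_nonneg_right hQ (by positivity : (0 : ℝ) ≤ 4 * (d + 1))
      refine this.trans (le_of_eq ?_)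
      field_simp
    push_cast
    nlinarith
  · refine ⟨c' / (4 * (d + 1)), C', by positivity, hC', fun ε hε => ?_⟩
    filter_upwards [m3 ε hε, hLL.eventually_ge_atTop (4 * (d + 1) / c'), hll] with X h1 h2 hX hne Q hQ
    apply holds_of hC₁ hX
    apply h1 hne
    rw [div_le_iff₀ hc'] at h2
    have h3 : (Q : ℝ) * (4 * (d + 1)) ≤ c' * (Real.log X / Real.log (Real.log X)) := by
      have := mul_le_mul_of_nonneg_right hQ (by positivity : (0 : ℝ) ≤ 4 * (d + 1))
      refine this.trans (le_of_eq ?_)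
      field_simp
    push_cast
    nlinarith

end Pool.Agent.Results.MP_a1177c_nt.LongSystemsAllDegrees
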