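import Pool.Agent.Q253.Cov.QuadF
import Pool.Agent.Q253.Cov.Pig

/-!
# Almost prime values of every admissible quadratic polynomial: all short intervals and narrow progressions

Let `f m = a m ^ 2 + b m + c` be admissible and let `r ≥ 3` and `h ≤ 1` with `50 < 3 (8 r - 1) h` (`r = 3`: `h > 0.725`, `r = 4`:
`h > 0.538`, `r = 5`: `h > 0.428`).  In EVERY interval of length `H ≥ X ^ h` below `X` the values `|f m|` have at most `r` prime factors,
all at least `X ^ (h/5)`, with the frequency expected from the sieve, and every subset of positive relative density of the set of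
these `m` contains arithmetic progressions of any length with difference at most a power of `log X`; there are such progressions of one
colour on which the number of the prime factors is constant.

Libraries (starting files): weighted sieve `Y882.KW.core4`, `Y882.SI.mer_quad` (Mertens for the roots), Szemerédi's theorem
relative to sifted sets `Y843.HS.fin`.
-/

set_option autoImplicit false

namespace Pool.Agent.Results.MP_a1177c_nt.NarrowProgressions

open Finset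
open Pool.Agent.Q253.Cov (QP QP_eval Zf GQ GP quad_count quad_ap pigeon)
open Pool.Agent.Y843.HS (VV Pr Pr_mem)

/-- the admissible triples of the question -/
structure Admissible (a b c : ℤ) : Prop where
  pos : 0 < a
  coprime : ∀ q : ℕ, q.Prime → ¬ ((q : ℤ) ∣ a ∧ (q : ℤ) ∣ b ∧ (q : ℤ) ∣ c)
  disc : ¬ IsSquare (b ^ 2 - 4 * a * c)
  parity : ¬ (Even (a + b) ∧ Even c)

/-- the polynomial -/
def f (a b c : ℤ) (m : ℕ) : ℤ := a * (m : ℤ) ^ 2 + b * m + c

/-- the number of the roots modulo `p` -/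
def rho (a b c : ℤ) (p : ℕ) : ℕ := ((range p).filter (fun m => (p : ℤ) ∣ f a b c m)).card

/-- the product of the `1 - rho p / p` over the primes `p ≤ H` -/
noncomputable def V (a b c : ℤ) (H : ℕ) : ℝ := ∏ p ∈ (Icc 1 H).filter Nat.Prime, (1 - (rho a b c p : ℝ) / p)

open Classical in
/-- the `m` of `(A, A + H]` for which `|f m| ≥ 2` has at most `r` prime factors (with multiplicity), all of them at least `z` -/
noncomputable def G (a b c : ℤ) (r : ℕ) (z : ℝ) (A H : ℕ) : Finset ℕ :=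
  (Ioc A (A + H)).filter (fun m => 2 ≤ (f a b c m).natAbs ∧ (f a b c m).natAbs.primeFactorsList.length ≤ r ∧
    ∀ q : ℕ, q.Prime → q ∣ (f a b c m).natAbs → z ≤ q)

lemma G_eq (a b c : ℤ) (r : ℕ) (h : ℝ) (X A H : ℕ) : G a b c r ((X : ℝ) ^ (h / 5)) A H = GQ (QP a b c) r h X A H := by
  classical
  ext m
  unfold G GQ GP f
  simp only [mem_filter, QP_eval, Int.natCast_dvd]
  tauto

lemma V_eq (a b c : ℤ) (H : ℕ) : V a b c H = VV (Zf (QP a b c)) 0 H := by
  unfold V VV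
  apply prod_congr
  · ext q
    rw [Pr_mem, mem_filter, mem_Icc]
    constructor
    · rintro ⟨⟨a, b⟩, c⟩
      exact ⟨⟨c.pos, b⟩, c⟩
    · rintro ⟨⟨a, b⟩, c⟩
      exact ⟨⟨c.pos, b⟩, c⟩
  · intro q _
    unfold rho Zf f
    simp only [QP_eval]

/-- **Almost prime values of quadratic polynomials in all short intervals and narrow progressions.** -/
theorem result : ∀ a b c : ℤ, Admissible a b c → ∀ r : ℕ, 3 ≤ r → ∀ h : ℝ, h ≤ 1 → 50 < 3 * (8 * (r : ℝ) - 1) * h →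
    (∃ δ : ℝ, 0 < δ ∧ ∃ X₀ : ℕ, ∀ X : ℕ, X₀ ≤ X → ∀ A H : ℕ, A + H ≤ X → (X : ℝ) ^ h ≤ H →
      δ * (H * V a b c H) ≤ ((G a b c r ((X : ℝ) ^ (h / 5)) A H).card : ℝ)) ∧
    (∀ L : ℕ, ∀ ε : ℝ, 0 < ε → ∃ D X₀ : ℕ, ∀ X : ℕ, X₀ ≤ X → ∀ A H : ℕ, A + H ≤ X → (X : ℝ) ^ h ≤ H →
      ∀ S ⊆ G a b c r ((X : ℝ) ^ (h / 5)) A H, ε * ((G a b c r ((X : ℝ) ^ (h / 5)) A H).card : ℝ) ≤ S.card →
        ∃ m d : ℕ, 1 ≤ d ∧ (d : ℝ) ≤ Real.log X ^ D ∧ ∀ j < L, m + j * d ∈ S) ∧
    (∀ L k : ℕ, 1 ≤ k → ∃ D X₀ : ℕ, ∀ X : ℕ, X₀ ≤ X → ∀ A H : ℕ, A + H ≤ X → (X : ℝ) ^ h ≤ H → ∀ col : ℕ → Fin k,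
      ∃ s : ℕ, 1 ≤ s ∧ s ≤ r ∧ ∃ i : Fin k, ∃ m d : ℕ, 1 ≤ d ∧ (d : ℝ) ≤ Real.log X ^ D ∧ ∀ j < L,
        A < m + j * d ∧ m + j * d ≤ A + H ∧ col (m + j * d) = i ∧
        (f a b c (m + j * d)).natAbs.primeFactorsList.length = s ∧
        ∀ q : ℕ, q.Prime → q ∣ (f a b c (m + j * d)).natAbs → (X : ℝ) ^ (h / 5) ≤ q) := by
  classical
  intro a b c hA r hr3 h hh1 hr
  have hp : ¬ ((2 : ℤ) ∣ a + b ∧ (2 : ℤ) ∣ c) := fun hd => hA.parity ⟨even_iff_two_dvd.2 hd.1, even_iff_two_dvd.2 hd.2⟩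
  have hr1 : 1 ≤ r := by omega
  refine ⟨?_, ?_, ?_⟩
  · obtain ⟨δ, hδ, X₀, H1⟩ := quad_count hA.pos hA.coprime hp hA.disc r h hh1 hr1 hr
    refine ⟨δ, hδ, X₀, fun X hX A H hAH hH => ?_⟩
    rw [G_eq, V_eq]
    exact H1 X hX A H hAH hH
  · intro L ε hε
    obtain ⟨D, X₀, H1⟩ := quad_ap hA.pos hA.coprime hp hA.disc r h hh1 hr1 hr L ε hε
    refine ⟨D, X₀, fun X hX A H hAH hH S hS hSc => ?_⟩
    rw [G_eq] at hS hSc
    exact H1 X hX A H hAH hH S hS hSc
  · intro L k hk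
    obtain ⟨K, hK⟩ : ∃ K : Finset (ℕ × Fin k), K = (Icc 1 r) ×ˢ univ := ⟨_, rfl⟩
    have hKc : K.card = r * k := by
      rw [hK, card_product, card_univ, Fintype.card_fin, Nat.card_Icc, Nat.add_sub_cancel]
    have hKpos : 0 < K.card := by
      rw [hKc]
      exact Nat.mul_pos (by omega) (by omega)
    have hKr : (0 : ℝ) < K.card := by exact_mod_cast hKpos
    obtain ⟨D, X₀, H1⟩ := quad_ap hA.pos hA.coprime hp hA.disc r h hh1 hr1 hr L (1 / (K.card : ℝ)) (by positivity)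
    refine ⟨D, X₀, fun X hX A H hAH hH col => ?_⟩
    have hGm : ∀ m ∈ G a b c r ((X : ℝ) ^ (h / 5)) A H, m ∈ Ioc A (A + H) ∧ 2 ≤ (f a b c m).natAbs ∧
        (f a b c m).natAbs.primeFactorsList.length ≤ r ∧ ∀ q : ℕ, q.Prime → q ∣ (f a b c m).natAbs → (X : ℝ) ^ (h / 5) ≤ q := by
      intro m hm
      unfold G at hm
      rw [mem_filter] at hm
      exact hm
    obtain ⟨e, heK, he⟩ := pigeon (G a b c r ((X : ℝ) ^ (h / 5)) A H) K
      (fun m => ((f a b c m).natAbs.primeFactorsList.length, col m)) (by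
        intro m hm
        obtain ⟨_, h2, h3, _⟩ := hGm m hm
        rw [hK, mem_product, mem_Icc]
        refine ⟨⟨?_, h3⟩, mem_univ _⟩
        by_contra hcon
        have h4 : (f a b c m).natAbs.primeFactorsList = [] := List.length_eq_zero_iff.1 (by
          show (f a b c m).natAbs.primeFactorsList.length = 0
          simp only at hcon
          omega)
        rw [Nat.primeFactorsList_eq_nil] at h4
        omega) (card_pos.1 hKpos)
    obtain ⟨m, d, hd1, hd2, hd3⟩ := H1 X hX A H hAH hH ((G a b c r ((X : ℝ) ^ (h / 5)) A H).filter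
      (fun m => ((f a b c m).natAbs.primeFactorsList.length, col m) = e)) (by
      rw [← G_eq]
      exact filter_subset _ _) (by
      rw [← G_eq]
      exact he)
    rw [hK, mem_product, mem_Icc] at heK
    refine ⟨e.1, heK.1.1, heK.1.2, e.2, m, d, hd1, hd2, ?_⟩
    intro j hj
    have h5 := hd3 j hj
    rw [mem_filter] at h5
    obtain ⟨g1, _, _, g4⟩ := hGm _ h5.1
    rw [mem_Ioc] at g1
    have g5 := h5.2
    refine ⟨g1.1, g1.2, ?_, ?_, g4⟩
    · rw [← g5]
    · rw [← g5]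

end Pool.Agent.Results.MP_a1177c_nt.NarrowProgressions
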