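import Pool.Agent.Q148.KJ.Quad
import Pool.Agent.Y882.JR.Lim
import Pool.Agent.W366.DC.SFX
import Pool.Agent.Y445.JRB.Buch

/-!
# The linear sieve with its exact functions for `a m² + b m + c`: all `a ≤ K`, all `b`, all but few `c`

For a single quadratic polynomial and `m ≤ X` the level of distribution is `X`. Here, for `m ≤ X` with `X ≥ H ^ θ`, for
all `a ≤ K` and ALL `b`, and for all `|c| ≤ H` with at most `H ^ (2 / 3 + ε) + H ^ (2 τ + ε) / X` exceptions, the level is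
`H ^ τ`, `τ < 1`: the number of `m ≤ X` such that `a m² + b m + c` has no prime factor below `H ^ (τ / s)` lies between the
bounds given by the lower and the upper function of the linear sieve, normalised by the constant of Hardy and
Littlewood (its product cut at `H ^ (1 / 3)`), and there are at most `2 / τ + δ` times as many primes as predicted. So
for `X = √H` and `c` outside a set with a power saving the factor is `8 / 3 + δ` instead of `4 + δ`, and there are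
products of at most two primes of the right order of magnitude.
-/

set_option autoImplicit false

namespace Pool.Agent.Results.MP_a1177c_nt.SieveFewConstantTerms

open Finset Filter Topology

/-- there is no fixed prime divisor: `gcd (a, b, c) = 1`, and `a + b` and `c` are not both even -/
def NoFixedDivisor (a b c : ℤ) : Prop :=
  (∀ p : ℕ, p.Prime → ¬ ((p : ℤ) ∣ a ∧ (p : ℤ) ∣ b ∧ (p : ℤ) ∣ c)) ∧ ¬ ((2 : ℤ) ∣ a + b ∧ (2 : ℤ) ∣ c)

/-- The constant `ε C(a, b, c) ∏ p / (p - 1)` of Hardy and Littlewood with the products restricted to the primes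
below `z`: `ε` is `2` if `a + b` is even and `1` otherwise, the first product is over the odd primes
dividing `a` and `b`, the second is over the odd primes not dividing `a`. -/
noncomputable def HL (a b c : ℤ) (z : ℝ) : ℝ :=
  (if (2 : ℤ) ∣ a + b then 2 else 1) *
  (∏ p ∈ (range ⌈z⌉₊).filter (fun p : ℕ => p.Prime ∧ 3 ≤ p ∧ (p : ℤ) ∣ a ∧ (p : ℤ) ∣ b), (p : ℝ) / (p - 1)) *
  ∏ p ∈ (range ⌈z⌉₊).filter (fun p : ℕ => p.Prime ∧ 3 ≤ p ∧ ¬ (p : ℤ) ∣ a),
    (1 - (jacobiSym (b ^ 2 - 4 * a * c) p : ℝ) / (p - 1))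

/-- the number of the `m ≤ X` such that `|a m² + b m + c|` is a prime -/
def P (a b c : ℤ) (X : ℕ) : ℕ :=
  #((Icc 1 X).filter (fun m : ℕ => Nat.Prime (a * (m : ℤ) ^ 2 + b * m + c).natAbs))

open Classical in
/-- the number of the `m ≤ X` such that `a m² + b m + c` has no prime factor below `z` -/
noncomputable def R (a b c : ℤ) (z : ℝ) (X : ℕ) : ℕ :=
  #((Icc 1 X).filter (fun m : ℕ => ∀ p : ℕ, p.Prime → (p : ℤ) ∣ a * (m : ℤ) ^ 2 + b * m + c → z ≤ p))

open Classical in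
/-- the number of the `m ≤ X` such that `|a m² + b m + c|` is a prime or the product of two primes larger than `w` -/
noncomputable def P₂ (a b c : ℤ) (w : ℝ) (X : ℕ) : ℕ :=
  #((Icc 1 X).filter (fun m : ℕ => Nat.Prime (a * (m : ℤ) ^ 2 + b * m + c).natAbs ∨
    ∃ q r : ℕ, q.Prime ∧ r.Prime ∧ (a * (m : ℤ) ^ 2 + b * m + c).natAbs = q * r ∧ w < q ∧ w < r))

/-- `F` and `f` are the upper and the lower function of the linear sieve. -/
structure SieveFunctions (F f : ℝ → ℝ) : Prop where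
  contF : ContinuousOn F (Set.Ici 1)
  contf : ContinuousOn f (Set.Ici 1)
  initF : ∀ s, 1 ≤ s → s ≤ 3 → F s = 2 * Real.exp Real.eulerMascheroniConstant / s
  initf : ∀ s, 1 ≤ s → s ≤ 2 → f s = 0
  nextf : ∀ s, 2 ≤ s → s ≤ 4 → f s = 2 * Real.exp Real.eulerMascheroniConstant * Real.log (s - 1) / s
  eqF : ∀ s, 3 ≤ s → s * F s = 2 * Real.exp Real.eulerMascheroniConstant + ∫ x in (3 : ℝ)..s, f (x - 1)
  eqf : ∀ s, 2 ≤ s → s * f s = ∫ x in (2 : ℝ)..s, F (x - 1)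
  limF : Tendsto F atTop (𝓝 1)
  limf : Tendsto f atTop (𝓝 1)

open Pool.Agent.Q148.KJ
open Pool.Agent.W468.ConjF (nr)
open Pool.Agent.Y882 (PZ)

/-- the constant is not small -/
lemma HL_low (v : ℝ) (hv : 0 < v) : ∃ Y0 : ℕ, ∀ Y : ℕ, Y0 ≤ Y → ∀ a b c : ℤ, 0 < a → NoFixedDivisor a b c →
    (Y : ℝ) ^ (-v) ≤ HL a b c ((Y : ℝ) ^ (1 / 3 : ℝ)) := by
  obtain ⟨Y1, h1⟩ := vlow 2 (1 / 3) v (by norm_num) (by norm_num) hv
  refine ⟨max Y1 27, fun Y hY a b c ha h => ?_⟩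
  have hY1 : Y1 ≤ Y := (le_max_left _ _).trans hY
  have hY2 : 27 ≤ Y := (le_max_right _ _).trans hY
  have e : HL a b c ((Y : ℝ) ^ (1 / 3 : ℝ)) = MG (QG a b) c Y := (MG_QG a b c h Y hY2).symm
  rw [e]
  have hpz : ∀ p ∈ PZ Y (1 / 3), p.Prime := fun p hp => (PZ_mem Y (by omega) _ p hp).1
  have h2 := h1 Y hY1 (fun p => nr a b c p) (by
    intro p hp
    have hp' := hpz p hp
    rcases hp'.eq_two_or_odd with rfl | hodd
    · have := nr_lt a b c h 2 Nat.prime_two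
      omega
    · have hp3 : 3 ≤ p := by
        have := hp'.two_le
        omega
      by_cases hpa : (p : ℤ) ∣ a
      · by_cases hpb : (p : ℤ) ∣ b
        · rw [Pool.Agent.W468.ConjF.nr_none a b c p hpa hpb (fun hc => h.1 p hp' ⟨hpa, hpb, hc⟩)]
          omega
        · rw [Pool.Agent.W468.ConjF.nr_lin a b c p hp' hpa hpb]
          omega
      · have h1 := Pool.Agent.W468.ConjF.nr_odd a b c p hp' hp3 hpa
        have h2 : jacobiSym (b ^ 2 - 4 * a * c) p ≤ 1 := by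
          rcases jacobiSym.trichotomy (b ^ 2 - 4 * a * c) p with h | h | h <;> rw [h] <;> norm_num
        omega) (fun p hp => nr_lt a b c h p (hpz p hp))
  refine h2.trans ?_
  have h3 := MG_eq (QG a b) c Y
  have h4 : vk (QG a b) c Y (1 / 3) = ∏ p ∈ PZ Y (1 / 3), (1 - (nr a b c p : ℝ) / p) := by
    unfold vk
    apply prod_congr rfl
    intro p _
    rw [ro_QG]
  rw [← h4, ← h3]
  apply mul_le_of_le_one_right (MG_nonneg _ _ _)
  apply prod_le_one
  · intro p hp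
    have hp0 : (1 : ℝ) < p := by exact_mod_cast (hpz p hp).one_lt
    rw [sub_nonneg, div_le_one (by linarith)]
    exact hp0.le
  · intro p hp
    have : (0 : ℝ) ≤ 1 / (p : ℝ) := by positivity
    linarith

/-- the first part: the sieve -/
lemma part1 (A0 : ℝ) (F f : ℝ → ℝ) (hSF : Pool.Agent.W23.DC.SF A0 F f)
    (hA : A0 = 2 * Real.exp Real.eulerMascheroniConstant) (K : ℕ) (θ τ s δ ε : ℝ) (hθ : 0 < θ) (hτ0 : 1 / 2 ≤ τ)
    (hτ1 : τ < 1) (hs : 2 ≤ s) (hδ : 0 < δ) (hε : 0 < ε) :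
    ∀ᶠ H : ℕ in atTop, ∀ (a b : ℤ) (X : ℕ), 0 < a → a ≤ K → (H : ℝ) ^ θ ≤ X →
    ∃ Bad ⊆ Icc (-(H : ℤ)) (H : ℤ), (#Bad : ℝ) ≤ (H : ℝ) ^ (2 / 3 + ε) + (H : ℝ) ^ (2 * τ + ε) / X ∧
    ∀ c ∈ Icc (-(H : ℤ)) (H : ℤ), c ∉ Bad → NoFixedDivisor a b c →
      (P a b c X : ℝ) ≤ (2 / τ + δ) * HL a b c ((H : ℝ) ^ (1 / 3 : ℝ)) * X / Real.log H ∧
      (f s - δ) * (Real.exp (-Real.eulerMascheroniConstant) * s / τ) * HL a b c ((H : ℝ) ^ (1 / 3 : ℝ)) * X /
        Real.log H ≤ (R a b c ((H : ℝ) ^ (τ / s)) X : ℝ) ∧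
      (R a b c ((H : ℝ) ^ (τ / s)) X : ℝ) ≤
        (F s + δ) * (Real.exp (-Real.eulerMascheroniConstant) * s / τ) * HL a b c ((H : ℝ) ^ (1 / 3 : ℝ)) * X /
          Real.log H := by
  classical
  have hτp : 0 < τ := by linarith
  have hγ1 : Real.exp Real.eulerMascheroniConstant * Real.exp (-Real.eulerMascheroniConstant) = 1 := by
    rw [← Real.exp_add, add_neg_cancel, Real.exp_zero]
  have hg0 : 0 < Real.exp (-Real.eulerMascheroniConstant) := Real.exp_pos _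
  have hg1 : Real.exp (-Real.eulerMascheroniConstant) ≤ 1 := by
    rw [← Real.exp_zero]
    apply Real.exp_le_exp.2
    have := Real.one_half_lt_eulerMascheroniConstant
    linarith
  set g := Real.exp (-Real.eulerMascheroniConstant) with hg
  set δ1 : ℝ := δ * τ / 16 with hδ1
  have hδ10 : 0 < δ1 := by positivity
  obtain ⟨Y1, H1⟩ := genM (K + 2) A0 F f hSF θ τ 3 δ1 (ε / 4) hθ hτp hτ1 (by norm_num) (by linarith) hδ10
    (by linarith)
  obtain ⟨Y2, H2⟩ := genM (K + 2) A0 F f hSF θ τ s δ (ε / 4) hθ hτp hτ1 (by linarith) (by linarith) hδ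
    (by linarith)
  obtain ⟨Y3, H3⟩ := HL_low (1 / 48) (by norm_num)
  -- sizes
  have ev1 : ∀ᶠ Y : ℕ in atTop, (9 : ℝ) ≤ (Y : ℝ) ^ (ε / 4) :=
    ((tendsto_rpow_atTop (by linarith)).comp tendsto_natCast_atTop_atTop).eventually_ge_atTop _
  have ev2 : ∀ᶠ Y : ℕ in atTop, 4 * (√(8 * K) + 1) / δ ≤ (Y : ℝ) ^ (1 / 48 : ℝ) :=
    ((tendsto_rpow_atTop (by norm_num)).comp tendsto_natCast_atTop_atTop).eventually_ge_atTop _
  have ev3 : ∀ᶠ Y : ℕ in atTop, Real.log Y ≤ (Y : ℝ) ^ (1 / 48 : ℝ) := by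
    have h1 := (isLittleO_log_rpow_atTop (show (0 : ℝ) < 1 / 48 by norm_num)).bound one_pos
    filter_upwards [tendsto_natCast_atTop_atTop.eventually h1, eventually_ge_atTop 1] with Y hY hY1
    have hY1r : (1 : ℝ) ≤ Y := by exact_mod_cast hY1
    rw [Real.norm_of_nonneg (Real.log_nonneg hY1r), Real.norm_of_nonneg (by positivity), one_mul] at hY
    exact hY
  filter_upwards [ev1, ev2, ev3, eventually_ge_atTop Y1, eventually_ge_atTop Y2, eventually_ge_atTop Y3,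
    eventually_ge_atTop 27] with H e1 e2 e3 hH1 hH2 hH3 hH27
  intro a b X ha haK hX
  have hHr : (27 : ℝ) ≤ H := by exact_mod_cast hH27
  have hH0 : (0 : ℝ) < H := by linarith
  have hH1r : (1 : ℝ) ≤ H := by linarith
  have hlH : 0 < Real.log H := Real.log_pos (by linarith)
  have hX0 : (0 : ℝ) < X := lt_of_lt_of_le (by positivity) hX
  have hdeg : 1 ≤ (QG a b).natDegree := by rw [QG_deg a b ha]; omega
  obtain ⟨B1, hB1s, hB1c, hB1⟩ := H1 H hH1 (QG a b) H X hdeg (QG_KF a b K ha haK) le_rfl hX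
  obtain ⟨B2, hB2s, hB2c, hB2⟩ := H2 H hH2 (QG a b) H X hdeg (QG_KF a b K ha haK) le_rfl hX
  set z : ℝ := (H : ℝ) ^ (τ / 3) with hz
  have hz1 : 1 ≤ z := Real.one_le_rpow hH1r (by positivity)
  have hz3 : z ≤ (H : ℝ) ^ (1 / 3 : ℝ) := Real.rpow_le_rpow_of_exponent_le hH1r (by linarith)
  -- the constant terms with a small value
  obtain ⟨Sm, hSm⟩ : ∃ Sm : ℤ → Prop, Sm = fun c => ∃ m : ℕ, m ∈ Icc 1 X ∧
      (((a * (m : ℤ) ^ 2 + b * m + c).natAbs : ℕ) : ℝ) < z := ⟨_, rfl⟩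
  obtain ⟨B3, hB3⟩ : ∃ B3, B3 = if (X : ℝ) ≤ (H : ℝ) ^ (1 / 4 : ℝ) then (Icc (-(H : ℤ)) (H : ℤ)).filter Sm
      else ∅ := ⟨_, rfl⟩
  have hc3 : (#B3 : ℝ) ≤ 3 * (H : ℝ) ^ (2 / 3 : ℝ) := by
    rw [hB3]
    split_ifs with hX4
    · have h1 : (Icc (-(H : ℤ)) (H : ℤ)).filter Sm ⊆
          (Icc 1 X).biUnion (fun m : ℕ => Icc (-(a * (m : ℤ) ^ 2 + b * m) - ⌊z⌋₊) (-(a * (m : ℤ) ^ 2 + b * m) + ⌊z⌋₊)) := by
        intro c hc
        rw [mem_filter, hSm] at hc
        obtain ⟨-, m, hm, hmz⟩ := hc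
        rw [mem_biUnion]
        refine ⟨m, hm, ?_⟩
        have h2 : (a * (m : ℤ) ^ 2 + b * m + c).natAbs ≤ ⌊z⌋₊ := Nat.le_floor hmz.le
        rw [mem_Icc]
        constructor <;> omega
      have h2 : #((Icc 1 X).biUnion (fun m : ℕ => Icc (-(a * (m : ℤ) ^ 2 + b * m) - ⌊z⌋₊)
          (-(a * (m : ℤ) ^ 2 + b * m) + ⌊z⌋₊))) ≤ X * (2 * ⌊z⌋₊ + 1) := by
        refine card_biUnion_le.trans ?_
        refine (sum_le_card_nsmul _ _ (2 * ⌊z⌋₊ + 1) ?_).trans ?_
        · intro m _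
          rw [Int.card_Icc]
          omega
        · rw [Nat.card_Icc, smul_eq_mul]
          exact Nat.mul_le_mul_right _ (by omega)
      have h3 : (#((Icc (-(H : ℤ)) (H : ℤ)).filter Sm) : ℝ) ≤ X * (2 * ⌊z⌋₊ + 1) := by
        exact_mod_cast (card_le_card h1).trans h2
      refine h3.trans ?_
      have h4 : (⌊z⌋₊ : ℝ) ≤ z := Nat.floor_le (by linarith)
      calc (X : ℝ) * (2 * ⌊z⌋₊ + 1) ≤ (H : ℝ) ^ (1 / 4 : ℝ) * (3 * (H : ℝ) ^ (1 / 3 : ℝ)) := by
            apply mul_le_mul hX4 _ (by positivity) (by positivity)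
            linarith
        _ = 3 * (H : ℝ) ^ (1 / 4 + 1 / 3 : ℝ) := by
            rw [Real.rpow_add hH0]
            ring
        _ ≤ 3 * (H : ℝ) ^ (2 / 3 : ℝ) := by
            apply mul_le_mul_of_nonneg_left _ (by norm_num)
            exact Real.rpow_le_rpow_of_exponent_le hH1r (by norm_num)
    · simp only [card_empty, Nat.cast_zero]
      positivity
  have hB3s : B3 ⊆ Icc (-(H : ℤ)) (H : ℤ) := by
    rw [hB3]
    split_ifs
    · exact filter_subset _ _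
    · exact empty_subset _
  refine ⟨B1 ∪ B2 ∪ B3, union_subset (union_subset hB1s hB2s) hB3s, ?_, ?_⟩
  · have h1 : #(B1 ∪ B2 ∪ B3) ≤ #B1 + #B2 + #B3 :=
      (card_union_le _ _).trans (Nat.add_le_add_right (card_union_le _ _) _)
    have h2 : (#(B1 ∪ B2 ∪ B3) : ℝ) ≤ #B1 + #B2 + #B3 := by exact_mod_cast h1
    have hHτ : (H : ℝ) ≤ (H : ℝ) ^ (2 * τ) := by
      calc (H : ℝ) = (H : ℝ) ^ (1 : ℝ) := (Real.rpow_one _).symm
        _ ≤ _ := Real.rpow_le_rpow_of_exponent_le hH1r (by linarith)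
    set u1 := (H : ℝ) ^ (2 / 3 + ε / 4) with hu1
    set u2 := (H : ℝ) ^ (2 * τ) / X * (H : ℝ) ^ (ε / 4) with hu2
    have hu10 : 0 < u1 := by positivity
    have hu20 : 0 < u2 := by positivity
    have h3 : (H + (H : ℝ) ^ (2 * τ)) / X * (H : ℝ) ^ (ε / 4) ≤ 2 * u2 := by
      have h4 : (H + (H : ℝ) ^ (2 * τ)) / X ≤ 2 * ((H : ℝ) ^ (2 * τ) / X) := by
        rw [mul_div_assoc']
        apply div_le_div_of_nonneg_right _ hX0.le
        linarith
      calc (H + (H : ℝ) ^ (2 * τ)) / X * (H : ℝ) ^ (ε / 4) ≤ 2 * ((H : ℝ) ^ (2 * τ) / X) * (H : ℝ) ^ (ε / 4) :=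
            mul_le_mul_of_nonneg_right h4 (by positivity)
        _ = 2 * u2 := by rw [hu2]; ring
    have h5 : (H : ℝ) ^ (2 / 3 : ℝ) ≤ u1 := Real.rpow_le_rpow_of_exponent_le hH1r (by linarith)
    have h6 : (#(B1 ∪ B2 ∪ B3) : ℝ) ≤ 9 * u1 + 9 * u2 := by linarith
    refine h6.trans ?_
    have h7 : 9 * u1 ≤ (H : ℝ) ^ (2 / 3 + ε) := by
      calc 9 * u1 ≤ (H : ℝ) ^ (ε / 4) * u1 := mul_le_mul_of_nonneg_right e1 hu10.le
        _ = (H : ℝ) ^ (ε / 4 + (2 / 3 + ε / 4)) := by rw [hu1, ← Real.rpow_add hH0]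
        _ ≤ _ := Real.rpow_le_rpow_of_exponent_le hH1r (by linarith)
    have h8 : 9 * u2 ≤ (H : ℝ) ^ (2 * τ + ε) / X := by
      calc 9 * u2 ≤ (H : ℝ) ^ (ε / 4) * u2 := mul_le_mul_of_nonneg_right e1 hu20.le
        _ = ((H : ℝ) ^ (2 * τ) * ((H : ℝ) ^ (ε / 4) * (H : ℝ) ^ (ε / 4))) / X := by rw [hu2]; ring
        _ = (H : ℝ) ^ (2 * τ + (ε / 4 + ε / 4)) / X := by
            rw [← Real.rpow_add hH0, ← Real.rpow_add hH0]
        _ ≤ _ := by
            apply div_le_div_of_nonneg_right _ hX0.le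
            exact Real.rpow_le_rpow_of_exponent_le hH1r (by linarith)
    linarith
  intro c hc hcB hfree
  rw [mem_union, mem_union, not_or, not_or] at hcB
  obtain ⟨⟨n1, n2⟩, n3⟩ := hcB
  have hM : MG (QG a b) c H = HL a b c ((H : ℝ) ^ (1 / 3 : ℝ)) := MG_QG a b c hfree H hH27
  have hR : ∀ v : ℝ, v ≤ 1 → rk (QG a b) c H v X = (R a b c ((H : ℝ) ^ v) X : ℝ) := fun v hv =>
    rk_QG a b c H (by omega) v hv X
  have hs0 : 0 < s := by linarith
  have hτs : τ / s ≤ 1 := by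
    rw [div_le_one hs0]
    linarith
  obtain ⟨k1, k2⟩ := hB1 c hc n1
  obtain ⟨k3, k4⟩ := hB2 c hc n2
  rw [hM, hR _ (by linarith)] at k1 k2
  rw [hM, hR _ hτs] at k3 k4
  have hMlow := H3 H hH3 a b c ha hfree
  set M := HL a b c ((H : ℝ) ^ (1 / 3 : ℝ)) with hMd
  have hM0 : 0 < M := lt_of_lt_of_le (by positivity) hMlow
  have hQ0 : 0 < (X : ℝ) / Real.log H := by positivity
  refine ⟨?_, ?_, ?_⟩
  · -- primes
    have hsub : (Icc 1 X).filter (fun m : ℕ => Nat.Prime (a * (m : ℤ) ^ 2 + b * m + c).natAbs) ⊆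
        (Icc 1 X).filter (fun m : ℕ => ∀ p : ℕ, p.Prime → (p : ℤ) ∣ a * (m : ℤ) ^ 2 + b * m + c → z ≤ p) ∪
        (Icc 1 X).filter (fun m : ℕ => (((a * (m : ℤ) ^ 2 + b * m + c).natAbs : ℕ) : ℝ) < z) := by
      intro m hm
      rw [mem_filter] at hm
      rw [mem_union, mem_filter, mem_filter]
      by_cases h : (((a * (m : ℤ) ^ 2 + b * m + c).natAbs : ℕ) : ℝ) < z
      · exact Or.inr ⟨hm.1, h⟩
      · left
        refine ⟨hm.1, fun p hp hd => ?_⟩
        have h1 : p ∣ (a * (m : ℤ) ^ 2 + b * m + c).natAbs := Int.natCast_dvd.1 hd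
        have h2 : p = (a * (m : ℤ) ^ 2 + b * m + c).natAbs := (Nat.prime_dvd_prime_iff_eq hp hm.2).1 h1
        rw [h2]
        exact not_lt.1 h
    have h1 : (P a b c X : ℝ) ≤ (R a b c z X : ℝ) +
        #((Icc 1 X).filter (fun m : ℕ => (((a * (m : ℤ) ^ 2 + b * m + c).natAbs : ℕ) : ℝ) < z)) := by
      unfold P R
      exact_mod_cast (card_le_card hsub).trans (card_union_le _ _)
    have h2 : (#((Icc 1 X).filter (fun m : ℕ => (((a * (m : ℤ) ^ 2 + b * m + c).natAbs : ℕ) : ℝ) < z)) : ℝ) ≤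
        δ / 2 * M * (X / Real.log H) := by
      by_cases hX4 : (X : ℝ) ≤ (H : ℝ) ^ (1 / 4 : ℝ)
      · have h3 : (Icc 1 X).filter (fun m : ℕ => (((a * (m : ℤ) ^ 2 + b * m + c).natAbs : ℕ) : ℝ) < z) = ∅ := by
          rw [filter_eq_empty_iff]
          intro m hm hmz
          apply n3
          rw [hB3, if_pos hX4, mem_filter, hSm]
          exact ⟨hc, m, hm, hmz⟩
        rw [h3, card_empty, Nat.cast_zero]
        positivity
      · push Not at hX4
        refine (small_card a b c ha z X).trans ?_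
        have har : (0 : ℝ) < a := by exact_mod_cast ha
        have haKr : (a : ℝ) ≤ K := by exact_mod_cast haK
        have hKr : (0 : ℝ) ≤ K := Nat.cast_nonneg _
        set y := (H : ℝ) ^ (1 / 48 : ℝ) with hy
        have hy0 : 0 < y := by positivity
        have hy1 : 1 ≤ y := Real.one_le_rpow hH1r (by norm_num)
        have hpow : ∀ n : ℕ, (H : ℝ) ^ ((n : ℝ) / 48) = y ^ n := by
          intro n
          rw [hy, ← Real.rpow_natCast, ← Real.rpow_mul hH0.le]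
          congr 1
          ring
        have hz16 : z ≤ y ^ 16 := by
          have := hpow 16
          norm_num at this
          rw [← this]
          exact hz3
        have hsq : √(8 * a * z) ≤ √(8 * K) * y ^ 8 := by
          have h4 : √(8 * (a : ℝ) * z) ≤ √((8 * K) * (y ^ 8) ^ 2) := by
            apply Real.sqrt_le_sqrt
            calc 8 * (a : ℝ) * z ≤ 8 * K * y ^ 16 := by gcongr
              _ = (8 * K) * (y ^ 8) ^ 2 := by ring
          have h4' : √((8 * (K : ℝ)) * (y ^ 8) ^ 2) = √(8 * K) * y ^ 8 := by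
            rw [Real.sqrt_mul (by positivity : (0 : ℝ) ≤ 8 * (K : ℝ)), Real.sqrt_sq (by positivity)]
          rw [h4'] at h4
          exact h4
        have h5 : 2 * (√(8 * a * z) + 1) ≤ 2 * (√(8 * K) + 1) * y ^ 8 := by
          have h6 : (1 : ℝ) ≤ y ^ 8 := one_le_pow₀ hy1
          nlinarith
        have hXy : y ^ 12 ≤ X := by
          have := hpow 12
          norm_num at this
          rw [← this]
          exact hX4.le
        have hMy : 1 / y ≤ M := by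
          rw [hy, one_div, ← Real.rpow_neg hH0.le]
          exact hMlow
        have h7 : y ^ 12 / y ≤ X * M := by
          calc y ^ 12 / y = y ^ 12 * (1 / y) := by ring
            _ ≤ X * M := mul_le_mul hXy hMy (by positivity) hX0.le
        have h8 : y ^ 11 ≤ X * M := by
          have : y ^ 12 / y = y ^ 11 := by field_simp
          rw [this] at h7
          exact h7
        have h9 : 2 * (√(8 * K) + 1) * y ^ 8 * Real.log H ≤ δ / 2 * y ^ 11 := by
          have h10 : 2 * (√(8 * K) + 1) ≤ δ / 2 * y := by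
            rw [div_le_iff₀ hδ] at e2
            linarith
          calc 2 * (√(8 * K) + 1) * y ^ 8 * Real.log H ≤ (δ / 2 * y) * y ^ 8 * y := by
                gcongr
            _ = δ / 2 * y ^ 10 := by ring
            _ ≤ δ / 2 * y ^ 11 := by
                apply mul_le_mul_of_nonneg_left _ (by positivity)
                exact pow_le_pow_right₀ hy1 (by norm_num)
        have h10 : 2 * (√(8 * K) + 1) * y ^ 8 ≤ δ / 2 * y ^ 11 / Real.log H := by
          rw [le_div_iff₀ hlH]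
          exact h9
        refine h5.trans (h10.trans ?_)
        have h11 : δ / 2 * M * (X / Real.log H) = δ / 2 * (X * M) / Real.log H := by ring
        rw [h11]
        apply div_le_div_of_nonneg_right _ hlH.le
        exact mul_le_mul_of_nonneg_left h8 (by positivity)
    have h3 : (F 3 + δ1) * (g * 3 / τ * M * (X / Real.log H)) ≤ (2 / τ + δ / 2) * M * (X / Real.log H) := by
      rw [hSF.F3 3 (by norm_num) le_rfl, hA]
      have e1 : (2 * Real.exp Real.eulerMascheroniConstant / 3 + δ1) * (g * 3 / τ * M * (X / Real.log H)) =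
          ((Real.exp Real.eulerMascheroniConstant * g) * (2 / τ) + 3 * δ1 / τ * g) * (M * (X / Real.log H)) := by
        field_simp
      rw [e1, hγ1, one_mul]
      have e2 : 3 * δ1 / τ = 3 * δ / 16 := by rw [hδ1]; field_simp
      rw [e2]
      have h4 : 3 * δ / 16 * g ≤ δ / 2 := by
        have : 3 * δ / 16 * g ≤ 3 * δ / 16 * 1 := mul_le_mul_of_nonneg_left hg1 (by positivity)
        linarith
      have h5 : 2 / τ + 3 * δ / 16 * g ≤ 2 / τ + δ / 2 := by linarith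
      calc (2 / τ + 3 * δ / 16 * g) * (M * (X / Real.log H)) ≤ (2 / τ + δ / 2) * (M * (X / Real.log H)) :=
            mul_le_mul_of_nonneg_right h5 (by positivity)
        _ = _ := by ring
    calc (P a b c X : ℝ) ≤ _ := h1
      _ ≤ (2 / τ + δ / 2) * M * (X / Real.log H) + δ / 2 * M * (X / Real.log H) :=
          add_le_add (k2.trans h3) h2
      _ = _ := by ring
  · refine le_trans (le_of_eq ?_) k3
    ring
  · refine k4.trans (le_of_eq ?_)
    ring

/-- the second part: almost primes -/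
lemma part2 (A0 : ℝ) (F f : ℝ → ℝ) (hSF : Pool.Agent.W23.DC.SF A0 F f) (K : ℕ) (θ u ε : ℝ) (hθ : 0 < θ)
    (hu : 1 / 3 ≤ u) (hu2 : u < 1 / 2) (hε : 0 < ε) : ∃ δ : ℝ, 0 < δ ∧
    ∀ᶠ H : ℕ in atTop, ∀ (a b : ℤ) (X : ℕ), 0 < a → a ≤ K → |b| * X ≤ K * H → X ^ 2 ≤ K * H → (H : ℝ) ^ θ ≤ X →
    ∃ Bad ⊆ Icc (-(H : ℤ)) (H : ℤ), (#Bad : ℝ) ≤ (H : ℝ) ^ (4 * u + ε) / X ∧
    ∀ c ∈ Icc (-(H : ℤ)) (H : ℤ), c ∉ Bad → NoFixedDivisor a b c →
      δ * HL a b c ((H : ℝ) ^ (1 / 3 : ℝ)) * X / Real.log H ≤ (P₂ a b c ((H : ℝ) ^ u) X : ℝ) := by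
  classical
  obtain ⟨κ, hκ0, hκ1, hκ2⟩ : ∃ κ : ℝ, 0 < κ ∧ κ ≤ (1 / 2 - u) / 4 ∧ κ ≤ ε / 32 :=
    ⟨min ((1 / 2 - u) / 4) (ε / 32), lt_min (by linarith) (by linarith), min_le_left _ _, min_le_right _ _⟩
  obtain ⟨ε', hε'0, hε'1, hε'2⟩ : ∃ ε' : ℝ, 0 < ε' ∧ ε' ≤ ε / 8 ∧ ε' ≤ 1 / 12 :=
    ⟨min (ε / 8) (1 / 12), lt_min (by linarith) (by norm_num), min_le_left _ _, min_le_right _ _⟩
  set ζ : ℝ := u + κ with hζ
  set τ : ℝ := 2 * ζ + κ with hτ
  have hζ0 : 0 < ζ := by linarith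
  have hτ0 : 0 < τ := by linarith
  have hτ1 : τ < 1 := by rw [hτ, hζ]; linarith
  set s : ℝ := τ / ζ with hs
  have hs2 : 2 < s := by
    rw [hs, lt_div_iff₀ hζ0]
    linarith
  have hs3 : s ≤ 3 := by
    rw [hs, div_le_iff₀ hζ0]
    linarith
  have hτs : τ / s = ζ := by
    rw [hs]
    field_simp
  have hg0 : 0 < Real.exp (-Real.eulerMascheroniConstant) := Real.exp_pos _
  set g := Real.exp (-Real.eulerMascheroniConstant) with hg
  have hf0 : 0 < f s := by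
    rw [hSF.f4 s hs2.le (by linarith)]
    have h1 : 0 < Real.log (s - 1) := Real.log_pos (by linarith)
    have h2 := hSF.pos
    positivity
  have hs0 : 0 < s := by linarith
  set c1 : ℝ := f s / 2 * (g * s / τ) with hc1
  have hc10 : 0 < c1 := by positivity
  obtain ⟨Y1, H1⟩ := genM (K + 2) A0 F f hSF θ τ s (f s / 2) ε' hθ hτ0 hτ1 (by linarith) (by linarith)
    (by linarith) hε'0
  obtain ⟨Y2, H2⟩ := HL_low (θ / 4) (by linarith)
  have ev1 : ∀ᶠ Y : ℕ in atTop, (3 : ℝ) ≤ (Y : ℝ) ^ (ε / 4) :=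
    ((tendsto_rpow_atTop (by linarith)).comp tendsto_natCast_atTop_atTop).eventually_ge_atTop _
  have ev2 : ∀ᶠ Y : ℕ in atTop, √(K : ℝ) ≤ (Y : ℝ) ^ (1 / 12 : ℝ) :=
    ((tendsto_rpow_atTop (by norm_num)).comp tendsto_natCast_atTop_atTop).eventually_ge_atTop _
  have ev3 : ∀ᶠ Y : ℕ in atTop, Real.log Y ≤ (Y : ℝ) ^ (θ / 4) := by
    have h1 := (isLittleO_log_rpow_atTop (show (0 : ℝ) < θ / 4 by linarith)).bound one_pos
    filter_upwards [tendsto_natCast_atTop_atTop.eventually h1, eventually_ge_atTop 1] with Y hY hY1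
    have hY1r : (1 : ℝ) ≤ Y := by exact_mod_cast hY1
    rw [Real.norm_of_nonneg (Real.log_nonneg hY1r), Real.norm_of_nonneg (by positivity), one_mul] at hY
    exact hY
  have ev4 : ∀ᶠ Y : ℕ in atTop, 12 / c1 ≤ (Y : ℝ) ^ (θ / 2) :=
    ((tendsto_rpow_atTop (by linarith)).comp tendsto_natCast_atTop_atTop).eventually_ge_atTop _
  have ev5 : ∀ᶠ Y : ℕ in atTop, ((K : ℝ) ^ 2 + K + 2) ≤ (Y : ℝ) ^ κ :=
    ((tendsto_rpow_atTop hκ0).comp tendsto_natCast_atTop_atTop).eventually_ge_atTop _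
  refine ⟨c1 / 2, by positivity, ?_⟩
  filter_upwards [ev1, ev2, ev3, ev4, ev5, eventually_ge_atTop Y1, eventually_ge_atTop Y2,
    eventually_ge_atTop 27] with H e1 e2 e3 e4 e5 hH1 hH2 hH27
  intro a b X ha haK hbX hX2 hX
  have hHr : (27 : ℝ) ≤ H := by exact_mod_cast hH27
  have hH0 : (0 : ℝ) < H := by linarith
  have hH1r : (1 : ℝ) ≤ H := by linarith
  have hlH : 0 < Real.log H := Real.log_pos (by linarith)
  have hX0 : (0 : ℝ) < X := lt_of_lt_of_le (by positivity) hX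
  have hdeg : 1 ≤ (QG a b).natDegree := by rw [QG_deg a b ha]; omega
  obtain ⟨B, hBs, hBc, hB⟩ := H1 H hH1 (QG a b) H X hdeg (QG_KF a b K ha haK) le_rfl hX
  refine ⟨B, hBs, ?_, ?_⟩
  · refine hBc.trans ?_
    have hHτ : (H : ℝ) ≤ (H : ℝ) ^ (2 * τ) := by
      calc (H : ℝ) = (H : ℝ) ^ (1 : ℝ) := (Real.rpow_one _).symm
        _ ≤ _ := Real.rpow_le_rpow_of_exponent_le hH1r (by linarith)
    set u2 := (H : ℝ) ^ (4 * u + 3 * ε / 8) / X with hu2d
    have hu20 : 0 < u2 := by positivity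
    have h3 : (H + (H : ℝ) ^ (2 * τ)) / X * (H : ℝ) ^ ε' ≤ 2 * u2 := by
      calc (H + (H : ℝ) ^ (2 * τ)) / X * (H : ℝ) ^ ε' ≤ (2 * (H : ℝ) ^ (2 * τ)) / X * (H : ℝ) ^ ε' := by
            apply mul_le_mul_of_nonneg_right _ (by positivity)
            apply div_le_div_of_nonneg_right _ hX0.le
            linarith
        _ = 2 * (((H : ℝ) ^ (2 * τ) * (H : ℝ) ^ ε') / X) := by ring
        _ ≤ 2 * u2 := by
            apply mul_le_mul_of_nonneg_left _ (by norm_num)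
            apply div_le_div_of_nonneg_right _ hX0.le
            rw [← Real.rpow_add hH0]
            apply Real.rpow_le_rpow_of_exponent_le hH1r
            rw [hτ, hζ]
            linarith
    have h4 : (H : ℝ) ^ (2 / 3 + ε') ≤ u2 := by
      rw [hu2d, le_div_iff₀ hX0]
      have h5 : (X : ℝ) ≤ √(K : ℝ) * (H : ℝ) ^ (1 / 2 : ℝ) := by
        have h6 : (X : ℝ) ^ 2 ≤ K * H := by exact_mod_cast hX2
        have h7 := Real.le_sqrt_of_sq_le h6
        rw [Real.sqrt_mul (by positivity : (0 : ℝ) ≤ (K : ℝ)), Real.sqrt_eq_rpow (H : ℝ)] at h7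
        exact h7
      calc (H : ℝ) ^ (2 / 3 + ε') * X ≤ (H : ℝ) ^ (2 / 3 + ε') * ((H : ℝ) ^ (1 / 12 : ℝ) * (H : ℝ) ^ (1 / 2 : ℝ)) := by
            apply mul_le_mul_of_nonneg_left _ (by positivity)
            exact h5.trans (mul_le_mul_of_nonneg_right e2 (by positivity))
        _ = (H : ℝ) ^ (2 / 3 + ε' + (1 / 12 + 1 / 2)) := by
            rw [← Real.rpow_add hH0, ← Real.rpow_add hH0]
        _ ≤ (H : ℝ) ^ (4 * u + 3 * ε / 8) := Real.rpow_le_rpow_of_exponent_le hH1r (by linarith)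
    calc (H : ℝ) ^ (2 / 3 + ε') + (H + (H : ℝ) ^ (2 * τ)) / X * (H : ℝ) ^ ε' ≤ 3 * u2 := by linarith
      _ ≤ (H : ℝ) ^ (ε / 4) * u2 := mul_le_mul_of_nonneg_right e1 hu20.le
      _ = (H : ℝ) ^ (ε / 4 + (4 * u + 3 * ε / 8)) / X := by
          rw [hu2d, Real.rpow_add hH0 (ε / 4) (4 * u + 3 * ε / 8)]
          ring
      _ ≤ (H : ℝ) ^ (4 * u + ε) / X := by
          apply div_le_div_of_nonneg_right _ hX0.le
          exact Real.rpow_le_rpow_of_exponent_le hH1r (by linarith)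
  intro c hc hcB hfree
  obtain ⟨k1, -⟩ := hB c hc hcB
  have hM : MG (QG a b) c H = HL a b c ((H : ℝ) ^ (1 / 3 : ℝ)) := MG_QG a b c hfree H hH27
  rw [hM, hτs, rk_QG a b c H (by omega) ζ (by linarith) X] at k1
  have hMlow := H2 H hH2 a b c ha hfree
  set M := HL a b c ((H : ℝ) ^ (1 / 3 : ℝ)) with hMd
  have hM0 : 0 < M := lt_of_lt_of_le (by positivity) hMlow
  have k2 : c1 * (M * X / Real.log H) ≤ (Rr a b c ((H : ℝ) ^ ζ) X : ℝ) := by
    refine le_trans (le_of_eq ?_) k1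
    rw [hc1]
    ring
  -- the values `0`, `1`, `-1`
  have h6 : ((Icc 1 X).filter (fun m : ℕ => |(QG a b).eval (m : ℤ) + c| ≤ 1)).card ≤ 6 := by
    have := Pool.Agent.Y882.PX.small_vals (QG a b) hdeg c X
    rw [QG_deg a b ha] at this
    exact this
  -- the rough values are almost primes
  set z : ℝ := (H : ℝ) ^ ζ with hz
  have hwz : (H : ℝ) ^ u < z := Real.rpow_lt_rpow_of_exponent_lt (by linarith) (by linarith)
  have hz1 : 1 < z := Real.one_lt_rpow (by linarith) hζ0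
  have hsub : (Icc 1 X).filter (fun m : ℕ => ∀ p : ℕ, p.Prime → (p : ℤ) ∣ a * (m : ℤ) ^ 2 + b * m + c → z ≤ p) ⊆
      (Icc 1 X).filter (fun m : ℕ => Nat.Prime (a * (m : ℤ) ^ 2 + b * m + c).natAbs ∨
        ∃ q r : ℕ, q.Prime ∧ r.Prime ∧ (a * (m : ℤ) ^ 2 + b * m + c).natAbs = q * r ∧
          (H : ℝ) ^ u < q ∧ (H : ℝ) ^ u < r) ∪
      (Icc 1 X).filter (fun m : ℕ => |(QG a b).eval (m : ℤ) + c| ≤ 1) := by
    intro m hm
    rw [mem_filter, mem_Icc] at hm
    rw [mem_union, mem_filter, mem_filter, mem_Icc, QG_eval]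
    by_cases h : |a * (m : ℤ) ^ 2 + b * m + c| ≤ 1
    · exact Or.inr ⟨hm.1, h⟩
    · left
      refine ⟨hm.1, ?_⟩
      have hN2 : 2 ≤ (a * (m : ℤ) ^ 2 + b * m + c).natAbs := by
        have : 1 < ((a * (m : ℤ) ^ 2 + b * m + c).natAbs : ℤ) := by
          rw [← Int.abs_eq_natAbs]
          exact not_le.1 h
        omega
      apply two_of z ((H : ℝ) ^ u) hwz hz1 _ hN2
      · -- the size
        have hmX : (m : ℤ) ≤ X := by exact_mod_cast hm.1.2
        have hm0 : (0 : ℤ) ≤ m := Int.natCast_nonneg m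
        have hK0 : (0 : ℤ) ≤ K := Int.natCast_nonneg K
        have hX2z : (X : ℤ) ^ 2 ≤ K * H := by exact_mod_cast hX2
        rw [mem_Icc] at hc
        have h7 : |a * (m : ℤ) ^ 2 + b * m + c| ≤ K * (K * H) + K * H + H := by
          calc |a * (m : ℤ) ^ 2 + b * m + c| ≤ |a * (m : ℤ) ^ 2| + |b * m| + |c| :=
                (abs_add_le _ _).trans (add_le_add (abs_add_le _ _) le_rfl)
            _ ≤ K * (K * H) + K * H + H := by
                apply add_le_add (add_le_add _ _) (abs_le.2 hc)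
                · rw [abs_mul, abs_of_pos ha, abs_of_nonneg (by positivity : (0 : ℤ) ≤ (m : ℤ) ^ 2)]
                  apply mul_le_mul haK _ (by positivity) hK0
                  exact (pow_le_pow_left₀ hm0 hmX 2).trans hX2z
                · rw [abs_mul, abs_of_nonneg hm0]
                  exact (mul_le_mul_of_nonneg_left hmX (abs_nonneg b)).trans hbX
        have h8 : (((a * (m : ℤ) ^ 2 + b * m + c).natAbs : ℕ) : ℝ) ≤ ((K : ℝ) ^ 2 + K + 1) * H := by
          rw [Nat.cast_natAbs]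
          have : ((|a * (m : ℤ) ^ 2 + b * m + c| : ℤ) : ℝ) ≤ ((K * (K * H) + K * H + H : ℤ) : ℝ) := by
            exact_mod_cast h7
          refine this.trans (le_of_eq ?_)
          push_cast
          ring
        have h9 : z ^ 3 = (H : ℝ) ^ (3 * ζ) := by
          rw [hz, ← Real.rpow_natCast, ← Real.rpow_mul hH0.le]
          congr 1
          push_cast
          ring
        rw [h9]
        calc (((a * (m : ℤ) ^ 2 + b * m + c).natAbs : ℕ) : ℝ) ≤ ((K : ℝ) ^ 2 + K + 1) * H := h8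
          _ < ((K : ℝ) ^ 2 + K + 2) * H := by
              apply mul_lt_mul_of_pos_right _ hH0
              linarith
          _ ≤ (H : ℝ) ^ κ * (H : ℝ) ^ (1 : ℝ) := by
              rw [Real.rpow_one]
              exact mul_le_mul_of_nonneg_right e5 hH0.le
          _ = (H : ℝ) ^ (κ + 1) := by rw [← Real.rpow_add hH0]
          _ ≤ (H : ℝ) ^ (3 * ζ) := by
              apply Real.rpow_le_rpow_of_exponent_le hH1r
              rw [hζ]
              linarith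
      · intro q hq hqN
        exact hm.2 q hq (Int.natCast_dvd.2 hqN)
  have h7 : (Rr a b c z X : ℝ) ≤ (P₂ a b c ((H : ℝ) ^ u) X : ℝ) + 6 := by
    have h8 := (card_le_card hsub).trans ((card_union_le _ _).trans (Nat.add_le_add_left h6 _))
    unfold Rr P₂
    exact_mod_cast h8
  have h8 : 6 ≤ c1 / 2 * (M * X / Real.log H) := by
    have h9 : (H : ℝ) ^ (θ / 2) ≤ M * X / Real.log H := by
      rw [le_div_iff₀ hlH]
      calc (H : ℝ) ^ (θ / 2) * Real.log H ≤ (H : ℝ) ^ (θ / 2) * (H : ℝ) ^ (θ / 4) :=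
            mul_le_mul_of_nonneg_left e3 (by positivity)
        _ = (H : ℝ) ^ (-(θ / 4)) * (H : ℝ) ^ θ := by
            rw [← Real.rpow_add hH0, ← Real.rpow_add hH0]
            congr 1
            ring
        _ ≤ M * X := mul_le_mul hMlow hX (by positivity) hM0.le
    have h10 : 12 / c1 ≤ M * X / Real.log H := e4.trans h9
    rw [div_le_iff₀ hc10] at h10
    linarith
  have h9 : c1 / 2 * M * X / Real.log H = c1 / 2 * (M * X / Real.log H) := by ring
  rw [h9]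
  linarith

/-- **The linear sieve for `a m² + b m + c`, for all but few constant terms.** There are the functions `F`, `f` of the
linear sieve such that the following holds for all `K` and `ε > 0`, `θ > 0`.

1. Let `1 / 2 ≤ τ < 1`, `s ≥ 2` and `δ > 0`. For all large `H`, all `1 ≤ a ≤ K`, all integers `b` and all `X ≥ H ^ θ`, all
integers `|c| ≤ H` with at most `H ^ (2 / 3 + ε) + H ^ (2 τ + ε) / X` exceptions and such that `a m² + b m + c` has no
fixed prime divisor satisfy, with the constant `M = HL a b c (H ^ (1 / 3))` of Hardy and Littlewood: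
* there are at most `(2 / τ + δ) M X / log H` primes `|a m² + b m + c|` with `m ≤ X`;
* the number of `m ≤ X` such that `a m² + b m + c` has no prime factor below `H ^ (τ / s)` is at least
  `(f(s) - δ) e ^ (-γ) (s / τ) M X / log H` and at most `(F(s) + δ) e ^ (-γ) (s / τ) M X / log H`.

2. Let `1 / 3 ≤ u < 1 / 2`. There is `δ > 0` such that for all large `H`, all `1 ≤ a ≤ K`, all `X ≥ H ^ θ` with
`X² ≤ K H` and all `b` with `|b| X ≤ K H`, all `|c| ≤ H` with at most `H ^ (4 u + ε) / X` exceptions and such that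
`a m² + b m + c` has no fixed prime divisor satisfy: for at least `δ M X / log H` of the `m ≤ X` the number
`|a m² + b m + c|` is a prime or a product of two primes larger than `H ^ u`. -/
theorem result : ∃ F f : ℝ → ℝ, SieveFunctions F f ∧
    (∀ (K : ℕ) (θ τ s δ ε : ℝ), 0 < θ → 1 / 2 ≤ τ → τ < 1 → 2 ≤ s → 0 < δ → 0 < ε →
      ∀ᶠ H : ℕ in atTop, ∀ (a b : ℤ) (X : ℕ), 0 < a → a ≤ K → (H : ℝ) ^ θ ≤ X →
      ∃ Bad ⊆ Icc (-(H : ℤ)) (H : ℤ), (#Bad : ℝ) ≤ (H : ℝ) ^ (2 / 3 + ε) + (H : ℝ) ^ (2 * τ + ε) / X ∧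
      ∀ c ∈ Icc (-(H : ℤ)) (H : ℤ), c ∉ Bad → NoFixedDivisor a b c →
        (P a b c X : ℝ) ≤ (2 / τ + δ) * HL a b c ((H : ℝ) ^ (1 / 3 : ℝ)) * X / Real.log H ∧
        (f s - δ) * (Real.exp (-Real.eulerMascheroniConstant) * s / τ) * HL a b c ((H : ℝ) ^ (1 / 3 : ℝ)) * X /
          Real.log H ≤ (R a b c ((H : ℝ) ^ (τ / s)) X : ℝ) ∧
        (R a b c ((H : ℝ) ^ (τ / s)) X : ℝ) ≤
          (F s + δ) * (Real.exp (-Real.eulerMascheroniConstant) * s / τ) * HL a b c ((H : ℝ) ^ (1 / 3 : ℝ)) * X /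
            Real.log H) ∧
    (∀ (K : ℕ) (θ u ε : ℝ), 0 < θ → 1 / 3 ≤ u → u < 1 / 2 → 0 < ε → ∃ δ : ℝ, 0 < δ ∧
      ∀ᶠ H : ℕ in atTop, ∀ (a b : ℤ) (X : ℕ), 0 < a → a ≤ K → |b| * X ≤ K * H → X ^ 2 ≤ K * H → (H : ℝ) ^ θ ≤ X →
      ∃ Bad ⊆ Icc (-(H : ℤ)) (H : ℤ), (#Bad : ℝ) ≤ (H : ℝ) ^ (4 * u + ε) / X ∧
      ∀ c ∈ Icc (-(H : ℤ)) (H : ℤ), c ∉ Bad → NoFixedDivisor a b c →
        δ * HL a b c ((H : ℝ) ^ (1 / 3 : ℝ)) * X / Real.log H ≤ (P₂ a b c ((H : ℝ) ^ u) X : ℝ)) := by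
  obtain ⟨A0, F, f, hSF⟩ := Pool.Agent.W366.DC.SFX
  have hA : A0 = 2 * Real.exp Real.eulerMascheroniConstant :=
    Pool.Agent.Y882.JR.A0_eq Pool.Agent.Y445.JRB.t hSF
  refine ⟨F, f, ?_, fun K θ τ s δ ε h1 h2 h3 h4 h5 h6 => part1 A0 F f hSF hA K θ τ s δ ε h1 h2 h3 h4 h5 h6,
    fun K θ u ε h1 h2 h3 h4 => part2 A0 F f hSF K θ u ε h1 h2 h3 h4⟩
  refine ⟨hSF.cF, hSF.cf, fun s h1 h3 => ?_, hSF.f2, fun s h2 h4 => ?_, fun s h3 => ?_, hSF.ef,
    Pool.Agent.Y882.JR.F_lim hSF, Pool.Agent.Y882.JR.f_lim hSF⟩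
  · rw [hSF.F3 s h1 h3, hA]
  · rw [hSF.f4 s h2 h4, hA]
  · rw [hSF.eF s h3, hA]

end Pool.Agent.Results.MP_a1177c_nt.SieveFewConstantTerms
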